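import Mathlib

/-!
# Splitting a finitely generated abelian group modulo a saturated subgroup
-/

set_option autoImplicit false

namespace Pool.Agent.E8helper74.BA

theorem exists_split (H : Type) [AddCommGroup H] [Module.Finite ℤ H] (L : AddSubgroup H) :
    ∃ (r : ℕ) (p : H →+ (Fin r → ℤ)) (s : (Fin r → ℤ) →+ H), (∀ a, p (s a) = a) ∧
      (∀ a, p a = 0 ↔ ∃ n : ℕ, 0 < n ∧ n • a ∈ L) ∧
      r + Module.finrank ℤ (AddSubgroup.toIntSubmodule L) = Module.finrank ℤ H := by
  let L' : Submodule ℤ H := AddSubgroup.toIntSubmodule L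
  let Q := H ⧸ L'
  let T : Submodule ℤ Q := Submodule.torsion ℤ Q
  let M := Q ⧸ T
  have h1 : Module.Finite ℤ M := inferInstance
  have h2 : Module.IsTorsionFree ℤ M := inferInstance
  have h3 : Module.Free ℤ M := Module.free_of_finite_type_torsion_free'
  let b := Module.finBasis ℤ M
  let p' : H →ₗ[ℤ] (Fin (Module.finrank ℤ M) → ℤ) :=
    b.equivFun.toLinearMap ∘ₗ T.mkQ ∘ₗ L'.mkQ
  have hp : Function.Surjective p' := by
    intro x
    obtain ⟨y, hy⟩ := T.mkQ_surjective (b.equivFun.symm x)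
    obtain ⟨z, rfl⟩ := L'.mkQ_surjective y
    refine ⟨z, ?_⟩
    change b.equivFun (T.mkQ (L'.mkQ z)) = x
    rw [hy, LinearEquiv.apply_symm_apply]
  obtain ⟨s, hs⟩ := Module.projective_lifting_property p' LinearMap.id hp
  refine ⟨_, p'.toAddMonoidHom, s.toAddMonoidHom, fun a => LinearMap.congr_fun hs a, fun a => ?_, ?_⟩
  rotate_left
  · have h4 : Module.finrank ℤ M = Module.finrank ℤ Q :=
      finrank_quotient_eq_of_le_torsion fun _ a => a
    rw [h4]
    exact Submodule.finrank_quotient_add_finrank L'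
  change b.equivFun (T.mkQ (L'.mkQ a)) = 0 ↔ _
  rw [LinearEquiv.map_eq_zero_iff, Submodule.mkQ_apply, Submodule.Quotient.mk_eq_zero]
  change L'.mkQ a ∈ Submodule.torsion ℤ Q ↔ _
  rw [Submodule.mem_torsion_iff]
  constructor
  · rintro ⟨n, hn⟩
    have hn0 : (n : ℤ) ≠ 0 := nonZeroDivisors.coe_ne_zero n
    have h4 : ((n : ℤ) • a) ∈ L' := by
      have : L'.mkQ ((n : ℤ) • a) = 0 := by
        rw [map_smul]
        exact hn
      rwa [Submodule.mkQ_apply, Submodule.Quotient.mk_eq_zero] at this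
    refine ⟨(n : ℤ).natAbs, Int.natAbs_pos.mpr hn0, ?_⟩
    have h5 : ((n : ℤ) • a) ∈ L := h4
    rw [← natCast_zsmul]
    rcases Int.natAbs_eq (n : ℤ) with h | h
    · have h6 : (((n : ℤ).natAbs : ℕ) : ℤ) = (n : ℤ) := by omega
      rw [h6]
      exact h5
    · have h6 : (((n : ℤ).natAbs : ℕ) : ℤ) = -(n : ℤ) := by omega
      rw [h6, neg_smul]
      exact L.neg_mem h5
  · rintro ⟨n, hn, h⟩
    refine ⟨⟨(n : ℤ), mem_nonZeroDivisors_of_ne_zero (by exact_mod_cast hn.ne')⟩, ?_⟩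
    change (n : ℤ) • L'.mkQ a = 0
    rw [← map_smul, Submodule.mkQ_apply, Submodule.Quotient.mk_eq_zero]
    change ((n : ℤ) • a) ∈ L
    simpa using h

end Pool.Agent.E8helper74.BA
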