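import Mathlib

/-!
# Stratification of affine schemes of finite type by finitely many functions
-/

set_option autoImplicit false

namespace Pool.Agent.E8helper74.BA

/-- `B` is the ring `(A / J)[1 / w]`. -/
structure Str {A : Type} [CommRing A] (J : Ideal A) (w : A) (B : Type) [CommRing B]
    [Algebra A B] : Prop where
  unit : IsUnit (algebraMap A B w)
  surj : ∀ b : B, ∃ (a : A) (n : ℕ), b * algebraMap A B w ^ n = algebraMap A B a
  ker : ∀ a : A, algebraMap A B a = 0 ↔ ∃ n : ℕ, w ^ n * a ∈ J

section

variable {A : Type} [CommRing A] {J : Ideal A} {w : A} {B : Type} [CommRing B] [Algebra A B]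

theorem Str.start (J : Ideal A) : Str J 1 (A ⧸ J) where
  unit := by
    rw [map_one]
    exact isUnit_one
  surj b := by
    obtain ⟨a, rfl⟩ := Ideal.Quotient.mk_surjective b
    exact ⟨a, 0, by simp⟩
  ker a := by
    change Ideal.Quotient.mk J a = 0 ↔ _
    rw [Ideal.Quotient.eq_zero_iff_mem]
    simp

theorem Str.quot (h : Str J w B) (c : A) :
    Str (J ⊔ Ideal.span {c}) w (B ⧸ Ideal.span {algebraMap A B c}) where
  unit := by
    have : algebraMap A (B ⧸ Ideal.span {algebraMap A B c}) w =
        Ideal.Quotient.mk _ (algebraMap A B w) := rfl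
    rw [this]
    exact h.unit.map _
  surj b := by
    obtain ⟨b, rfl⟩ := Ideal.Quotient.mk_surjective b
    obtain ⟨a, n, hn⟩ := h.surj b
    refine ⟨a, n, ?_⟩
    exact congrArg (Ideal.Quotient.mk (Ideal.span {algebraMap A B c})) hn
  ker a := by
    change Ideal.Quotient.mk _ (algebraMap A B a) = 0 ↔ _
    rw [Ideal.Quotient.eq_zero_iff_mem, Ideal.mem_span_singleton']
    constructor
    · rintro ⟨b, hb⟩
      obtain ⟨a', n, hn⟩ := h.surj b
      have h1 : algebraMap A B (w ^ n * a - a' * c) = 0 := by
        rw [map_sub, map_mul, map_mul, map_pow, ← hn, ← hb]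
        ring
      obtain ⟨m, hm⟩ := (h.ker _).mp h1
      refine ⟨m + n, ?_⟩
      rw [Submodule.mem_sup]
      refine ⟨_, hm, w ^ m * a' * c, Ideal.mul_mem_left _ _ (Ideal.mem_span_singleton_self c), ?_⟩
      ring
    · rintro ⟨n, hn⟩
      rw [Submodule.mem_sup] at hn
      obtain ⟨j, hj, y, hy, hjy⟩ := hn
      obtain ⟨r, rfl⟩ := Ideal.mem_span_singleton'.mp hy
      have h0 : algebraMap A B j = 0 := (h.ker j).mpr ⟨0, by simpa using hj⟩
      have h1 : algebraMap A B w ^ n * algebraMap A B a = algebraMap A B r * algebraMap A B c := by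
        have := congrArg (algebraMap A B) hjy
        rw [map_add, h0, zero_add, map_mul, map_mul, map_pow] at this
        exact this.symm
      obtain ⟨u, hu⟩ := (h.unit.pow n).exists_left_inv
      refine ⟨u * algebraMap A B r, ?_⟩
      rw [mul_assoc, ← h1, ← mul_assoc, hu, one_mul]

theorem Str.loc (h : Str J w B) (c : A) (B' : Type) [CommRing B'] [Algebra A B'] [Algebra B B']
    [IsScalarTower A B B'] [IsLocalization.Away (algebraMap A B c) B'] : Str J (w * c) B' where
  unit := by
    rw [map_mul]
    refine IsUnit.mul ?_ ?_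
    · rw [IsScalarTower.algebraMap_apply A B B']
      exact h.unit.map _
    · rw [IsScalarTower.algebraMap_apply A B B']
      exact IsLocalization.Away.algebraMap_isUnit _
  surj b' := by
    obtain ⟨n, b, hb⟩ := IsLocalization.Away.surj (algebraMap A B c) b'
    obtain ⟨a, m, hm⟩ := h.surj b
    refine ⟨a * c ^ m * w ^ n, n + m, ?_⟩
    have h1 := congrArg (algebraMap B B') hm
    rw [map_mul, ← hb, map_pow] at h1
    simp only [map_mul, map_pow]
    simp only [← IsScalarTower.algebraMap_apply A B B'] at h1
    linear_combination (algebraMap A B' c ^ m * algebraMap A B' w ^ n) * h1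
  ker a := by
    have h1 : algebraMap A B' a = 0 ↔ ∃ n : ℕ, algebraMap A B c ^ n * algebraMap A B a = 0 := by
      rw [IsScalarTower.algebraMap_apply A B B', IsLocalization.map_eq_zero_iff
        (Submonoid.powers (algebraMap A B c)) B']
      constructor
      · rintro ⟨⟨_, n, rfl⟩, hn⟩
        exact ⟨n, hn⟩
      · rintro ⟨n, hn⟩
        exact ⟨⟨_, n, rfl⟩, hn⟩
    rw [h1]
    constructor
    · rintro ⟨n, hn⟩
      rw [← map_pow, ← map_mul] at hn
      obtain ⟨m, hm⟩ := (h.ker _).mp hn
      refine ⟨n + m, ?_⟩
      have : (w * c) ^ (n + m) * a = (w ^ n * c ^ m) * (w ^ m * (c ^ n * a)) := by ring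
      rw [this]
      exact Ideal.mul_mem_left _ _ hm
    · rintro ⟨n, hn⟩
      refine ⟨n, ?_⟩
      rw [← map_pow, ← map_mul, h.ker]
      refine ⟨n, ?_⟩
      have : w ^ n * (c ^ n * a) = (w * c) ^ n * a := by ring
      rw [this]
      exact hn

theorem Str.zero (h : Str J w B) {a : A} (ha : a ∈ J) : algebraMap A B a = 0 :=
  (h.ker a).mpr ⟨0, by simpa using ha⟩

theorem Str.ext (h : Str J w B) {E : Type} [CommRing E] (g1 g2 : B →+* E)
    (hg : g1.comp (algebraMap A B) = g2.comp (algebraMap A B)) : g1 = g2 := by
  ext b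
  obtain ⟨a, n, hn⟩ := h.surj b
  have h1 := congrArg g1 hn
  have h2 := congrArg g2 hn
  have h3 : g1 (algebraMap A B a) = g2 (algebraMap A B a) := RingHom.congr_fun hg a
  have h4 : g1 (algebraMap A B w) = g2 (algebraMap A B w) := RingHom.congr_fun hg w
  rw [map_mul, map_pow] at h1 h2
  rw [h3, ← h2, h4] at h1
  have h5 : IsUnit (g2 (algebraMap A B w) ^ n) := (h.unit.map g2).pow n
  exact h5.mul_left_injective h1

theorem Str.lift (h : Str J w B) {E : Type} [CommRing E] (g : A →+* E) (hJ : ∀ a ∈ J, g a = 0)
    (hw : IsUnit (g w)) : ∃ k : B →+* E, k.comp (algebraMap A B) = g := by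
  let _ : Algebra (A ⧸ J) B := (Ideal.Quotient.lift J (algebraMap A B) fun a ha => h.zero ha).toAlgebra
  have hmk : ∀ a : A, algebraMap (A ⧸ J) B (Ideal.Quotient.mk J a) = algebraMap A B a := fun _ => rfl
  have hloc : IsLocalization.Away (Ideal.Quotient.mk J w) B :=
    { map_units := by
        rintro ⟨_, n, rfl⟩
        change IsUnit (algebraMap (A ⧸ J) B (Ideal.Quotient.mk J w ^ n))
        rw [map_pow, hmk]
        exact h.unit.pow n
      surj := by
        intro b
        obtain ⟨a, n, hn⟩ := h.surj b
        refine ⟨(Ideal.Quotient.mk J a, ⟨_, n, rfl⟩), ?_⟩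
        change b * algebraMap (A ⧸ J) B (Ideal.Quotient.mk J w ^ n) = _
        rw [map_pow, hmk, hn]
        rfl
      exists_of_eq := by
        intro x y hxy
        obtain ⟨x, rfl⟩ := Ideal.Quotient.mk_surjective x
        obtain ⟨y, rfl⟩ := Ideal.Quotient.mk_surjective y
        rw [hmk, hmk, ← sub_eq_zero, ← map_sub, h.ker] at hxy
        obtain ⟨n, hn⟩ := hxy
        refine ⟨⟨_, n, rfl⟩, ?_⟩
        change Ideal.Quotient.mk J w ^ n * _ = Ideal.Quotient.mk J w ^ n * _
        rw [← map_pow, ← map_mul, ← map_mul, ← sub_eq_zero, ← map_sub,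
          Ideal.Quotient.eq_zero_iff_mem, ← mul_sub]
        exact hn }
  let g' : A ⧸ J →+* E := Ideal.Quotient.lift J g hJ
  have hg' : IsUnit (g' (Ideal.Quotient.mk J w)) := hw
  refine ⟨IsLocalization.Away.lift (S := B) (Ideal.Quotient.mk J w) hg', ?_⟩
  ext a
  rw [RingHom.comp_apply, ← hmk, IsLocalization.Away.lift_eq]
  rfl

theorem Str.finiteType (h : Str J w B) : Algebra.FiniteType A B := by
  obtain ⟨u, hu⟩ := h.unit.exists_left_inv
  refine Algebra.FiniteType.of_surjective (R := A) (A := Polynomial A) (Polynomial.aeval u) ?_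
  intro b
  obtain ⟨a, n, hn⟩ := h.surj b
  refine ⟨Polynomial.C a * Polynomial.X ^ n, ?_⟩
  rw [map_mul, Polynomial.aeval_C, map_pow, Polynomial.aeval_X, ← hn, mul_assoc, ← mul_pow,
    mul_comm (algebraMap A B w), hu, one_pow, mul_one]

end

/-- `B` is a stratum of `A / J0` for the functions `S`: the universal ring in which some of the elements
of `S` are units and the others are zero. -/
structure IsStratum {A : Type} [CommRing A] (J0 : Ideal A) (S : Set A) (B : Type) [CommRing B]
    [Algebra A B] : Prop where
  zero : ∀ a ∈ J0, algebraMap A B a = 0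
  dich : ∀ a ∈ S, IsUnit (algebraMap A B a) ∨ algebraMap A B a = 0
  lift : ∀ (E : Type) [CommRing E] (g : A →+* E), (∀ a ∈ J0, g a = 0) →
    (∀ a ∈ S, algebraMap A B a = 0 → g a = 0) →
    (∀ a ∈ S, IsUnit (algebraMap A B a) → IsUnit (g a)) → ∃ k : B →+* E, k.comp (algebraMap A B) = g
  ext : ∀ (E : Type) [CommRing E] (g1 g2 : B →+* E),
    g1.comp (algebraMap A B) = g2.comp (algebraMap A B) → g1 = g2
  gen : ∀ b : B, ∃ (a w : A), w ∈ Submonoid.closure S ∧ IsUnit (algebraMap A B w) ∧
    b * algebraMap A B w = algebraMap A B a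
  ft : Algebra.FiniteType A B

section

variable {A : Type} [CommRing A] [hA : Algebra.FiniteType ℤ A] (J0 : Ideal A) (S : Finset A)
  (F : ∀ (B : Type) [CommRing B], Prop)
  (hF : ∀ (B : Type) [CommRing B] [Algebra.FiniteType ℤ B] (c : B), F (B ⧸ Ideal.span {c}) →
    F (Localization.Away c) → F B)

include hA hF

theorem strat_aux (hS : ∀ (B : Type) [CommRing B] [Algebra A B], IsStratum J0 (S : Set A) B → F B)
    (S' : Finset A) : S' ⊆ S → ∀ (T : Set A) (w : A) (B : Type) [CommRing B] [Algebra A B],
      T ⊆ S → w ∈ Submonoid.closure (S : Set A) → Str (J0 ⊔ Ideal.span T) w B →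
      (∀ a ∈ S, a ∉ S' → IsUnit (algebraMap A B a) ∨ algebraMap A B a = 0) → F B := by
  classical
  induction S' using Finset.induction_on with
  | empty =>
    intro _ T w B _ _ hT hw hB hd
    refine hS B ⟨fun a ha => hB.zero (Ideal.mem_sup_left ha), fun a ha => hd a ha (by simp), ?_,
      fun E _ g1 g2 hg => hB.ext g1 g2 hg, ?_, hB.finiteType⟩
    · intro E _ g h0 h1 h2
      refine hB.lift g ?_ ?_
      · have hle : J0 ⊔ Ideal.span T ≤ RingHom.ker g := by
          rw [sup_le_iff]
          refine ⟨h0, ?_⟩
          rw [Ideal.span_le]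
          intro t ht
          exact h1 t (hT ht) (hB.zero (Ideal.mem_sup_right (Ideal.subset_span ht)))
        intro a ha
        exact hle ha
      · have hcl : ∀ x ∈ Submonoid.closure (S : Set A), IsUnit (algebraMap A B x) →
            IsUnit (g x) := by
          intro x hx
          induction hx using Submonoid.closure_induction with
          | mem x hx => exact h2 x hx
          | one =>
            intro _
            rw [map_one]
            exact isUnit_one
          | mul x y _ _ hx hy =>
            intro h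
            rw [map_mul] at h ⊢
            exact IsUnit.mul (hx (isUnit_of_mul_isUnit_left h)) (hy (isUnit_of_mul_isUnit_right h))
        exact hcl w hw hB.unit
    · intro b
      obtain ⟨a, n, hn⟩ := hB.surj b
      refine ⟨a, w ^ n, pow_mem hw n, ?_, ?_⟩
      · rw [map_pow]
        exact hB.unit.pow n
      · rw [map_pow]
        exact hn
  | insert c S' hc ih =>
    intro hS' T w B _ _ hT hw hB hd
    have hB' := hB.finiteType
    have hBft : Algebra.FiniteType ℤ B := Algebra.FiniteType.trans (S := A) hA hB'
    have hcS : c ∈ S := hS' (Finset.mem_insert_self c S')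
    have hsub : S' ⊆ S := fun x hx => hS' (Finset.mem_insert_of_mem hx)
    refine hF B (algebraMap A B c) ?_ ?_
    · refine ih hsub (insert c T) w _ ?_ hw ?_ ?_
      · exact Set.insert_subset hcS hT
      · have h1 := hB.quot c
        have h2 : J0 ⊔ Ideal.span (insert c T) = J0 ⊔ Ideal.span T ⊔ Ideal.span {c} := by
          rw [Ideal.span_insert, sup_assoc, sup_comm (Ideal.span T)]
        rw [h2]
        exact h1
      · intro a ha ha'
        by_cases hac : a = c
        · subst hac
          right
          change Ideal.Quotient.mk _ (algebraMap A B a) = 0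
          rw [Ideal.Quotient.eq_zero_iff_mem]
          exact Ideal.mem_span_singleton_self _
        · rcases hd a ha (by simp [hac, ha']) with h | h
          · exact Or.inl (h.map (Ideal.Quotient.mk (Ideal.span {algebraMap A B c})))
          · right
            change Ideal.Quotient.mk _ (algebraMap A B a) = 0
            rw [h, map_zero]
    · refine ih hsub T (w * c) _ hT (mul_mem hw (Submonoid.subset_closure hcS))
        (hB.loc c (Localization.Away (algebraMap A B c))) ?_
      intro a ha ha'
      by_cases hac : a = c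
      · subst hac
        left
        rw [IsScalarTower.algebraMap_apply A B (Localization.Away (algebraMap A B a))]
        exact IsLocalization.Away.algebraMap_isUnit _
      · rw [IsScalarTower.algebraMap_apply A B (Localization.Away (algebraMap A B c))]
        rcases hd a ha (by simp [hac, ha']) with h | h
        · exact Or.inl (h.map _)
        · right
          rw [h, map_zero]

/-- A property of affine schemes of finite type over `ℤ` which is closed under closed-open
decompositions is true for `Spec A / J0` if it is true for all strata. -/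
theorem strat (hS : ∀ (B : Type) [CommRing B] [Algebra A B], IsStratum J0 (S : Set A) B → F B) :
    F (A ⧸ J0) := by
  refine strat_aux J0 S F hF hS S (Finset.Subset.refl _) ∅ 1 (A ⧸ J0) (Set.empty_subset _)
    (one_mem _) ?_ (fun a ha ha' => absurd ha ha')
  rw [Ideal.span_empty, sup_bot_eq]
  exact Str.start J0

end

end Pool.Agent.E8helper74.BA
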