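import Pool.Agent.E8helper74.BA.Tor
import Pool.Agent.E8helper74.BA.Str
import Pool.Agent.E8helper74.BA.Split

/-!
# The strata of a system of polynomial equations
-/

set_option autoImplicit false

open MvPolynomial

attribute [local instance] Classical.propDecidable

namespace Pool.Agent.E8helper74.BA

section ismon

variable {H E : Type} [AddCommGroup H] [CommRing E] {h : H → E}

theorem IsMon.nsmul (hh : IsMon h) (n : ℕ) (a : H) : h (n • a) = h a ^ n := by
  induction n with
  | zero => rw [zero_smul, hh.zero, pow_zero]
  | succ n ih => rw [succ_nsmul, hh.add, ih, pow_succ]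

theorem IsMon.neg_mul (hh : IsMon h) (a : H) : h (-a) * h a = 1 := by
  rw [← hh.add, neg_add_cancel, hh.zero]

end ismon

section gen

variable {R : Type} [CommRing R] {σ : Type} [Fintype σ] {q : σ → Prop} {E : Type} [CommRing E]

/-- the exponents as an element of the group -/
def res (q : σ → Prop) (m : σ →₀ ℕ) : {i : σ // q i} → ℤ := fun i => (m i.1 : ℤ)

theorem res_add (m m' : σ →₀ ℕ) : res q (m + m') = res q m + res q m' := by
  funext i
  simp [res]

/-- all variables of the monomial have the property `q` -/
def Sup (q : σ → Prop) (m : σ →₀ ℕ) : Prop := ∀ i, m i ≠ 0 → q i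

variable {h : ({i : σ // q i} → ℤ) → E} (hh : IsMon h) (g : MvPolynomial σ R →+* E)
  (hg : ∀ i, g (X i) = if hi : q i then h (Pi.single ⟨i, hi⟩ 1) else 0)

include hh hg

theorem g_monomial_one (m : σ →₀ ℕ) (hm : Sup q m) : g (monomial m 1) = h (res q m) := by
  induction m using Finsupp.induction_linear with
  | zero =>
    have h1 : res q (0 : σ →₀ ℕ) = 0 := by
      funext i
      simp [res]
    rw [h1, hh.zero]
    exact map_one g
  | add m m' ih ih' =>
    have h1 : Sup q m := fun i hi => hm i (by simp; omega)
    have h2 : Sup q m' := fun i hi => hm i (by simp; omega)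
    rw [res_add, hh.add, ← ih h1, ← ih' h2, ← map_mul, monomial_mul, one_mul]
  | single i n =>
    by_cases hn : n = 0
    · subst hn
      have h1 : res q (Finsupp.single i 0 : σ →₀ ℕ) = 0 := by
        funext i
        simp [res]
      rw [h1, hh.zero, Finsupp.single_zero]
      exact map_one g
    · have hi : q i := hm i (by simpa using hn)
      have h1 : res q (Finsupp.single i n) = n • Pi.single (⟨i, hi⟩ : {i : σ // q i}) (1 : ℤ) := by
        funext j
        by_cases hj : j = ⟨i, hi⟩
        · subst hj
          simp [res]
        · have hj' : i ≠ j.1 := fun h => hj (Subtype.ext h.symm)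
          simp [res, Pi.single_eq_of_ne hj, Finsupp.single_eq_of_ne' hj']
      rw [h1, hh.nsmul]
      have h2 : (monomial (Finsupp.single i n) (1 : R)) = X i ^ n := by
        rw [X_pow_eq_monomial]
      rw [h2, map_pow, hg, dif_pos hi]

theorem g_monomial (m : σ →₀ ℕ) (c : R) :
    g (monomial m c) = if Sup q m then g (C c) * h (res q m) else 0 := by
  have h1 : monomial m c = C c * monomial m 1 := by
    rw [C_mul_monomial, mul_one]
  split_ifs with hm
  · rw [h1, map_mul, g_monomial_one hh g hg m hm]
  · unfold Sup at hm
    push Not at hm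
    obtain ⟨i, hi, hq⟩ := hm
    have h2 : m = (m - Finsupp.single i 1) + Finsupp.single i 1 := by
      rw [tsub_add_cancel_of_le]
      rw [Finsupp.single_le_iff]
      omega
    have h3 : monomial m (1 : R) = monomial (m - Finsupp.single i 1) 1 * X i := by
      rw [X, monomial_mul, one_mul, ← h2]
    rw [h1, map_mul, h3, map_mul, hg, dif_neg hq, mul_zero, mul_zero]

end gen

end Pool.Agent.E8helper74.BA
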