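import Pool.Agent.E8helper74.BA.Cell

/-!
# The strata of a system of polynomial equations are products of a torus and a scheme of small dimension
-/

set_option autoImplicit false
set_option linter.unusedSectionVars false

open MvPolynomial

attribute [local instance] Classical.propDecidable

namespace Pool.Agent.E8helper74.BA

section cell

variable {R : Type} [CommRing R] {σ κ : Type} [Fintype σ] [Fintype κ] (f : κ → MvPolynomial σ R)

/-- the variables and the coefficients -/
noncomputable def fns : Finset (MvPolynomial σ R) :=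
  Finset.univ.image X ∪
    Finset.univ.biUnion fun l => (f l).support.image fun m => C (coeff m (f l))

theorem X_mem_fns (i : σ) : X i ∈ (fns f : Set (MvPolynomial σ R)) := by
  simp [fns]

theorem C_mem_fns (l : κ) (m : σ →₀ ℕ) (hm : m ∈ (f l).support) :
    C (coeff m (f l)) ∈ (fns f : Set (MvPolynomial σ R)) := by
  unfold fns
  rw [Finset.mem_coe, Finset.mem_union]
  right
  rw [Finset.mem_biUnion]
  exact ⟨l, Finset.mem_univ _, Finset.mem_image_of_mem _ hm⟩

theorem mem_fns {a : MvPolynomial σ R} (ha : a ∈ (fns f : Set (MvPolynomial σ R))) :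
    (∃ i, a = X i) ∨ ∃ l, ∃ m ∈ (f l).support, a = C (coeff m (f l)) := by
  unfold fns at ha
  rw [Finset.mem_coe, Finset.mem_union] at ha
  rcases ha with ha | ha
  · obtain ⟨i, -, rfl⟩ := Finset.mem_image.mp ha
    exact Or.inl ⟨i, rfl⟩
  · rw [Finset.mem_biUnion] at ha
    obtain ⟨l, -, ha⟩ := ha
    obtain ⟨m, hm, rfl⟩ := Finset.mem_image.mp ha
    exact Or.inr ⟨l, m, hm, rfl⟩

variable (B : Type) [CommRing B] [Algebra (MvPolynomial σ R) B] [Algebra R B]
  [IsScalarTower R (MvPolynomial σ R) B]

/-- the variable is a unit in `B` -/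
def uq (R : Type) [CommRing R] {σ : Type} (B : Type) [CommRing B] [Algebra (MvPolynomial σ R) B]
    (i : σ) : Prop := IsUnit (algebraMap (MvPolynomial σ R) B (X i))

/-- the group of exponents -/
abbrev HH (R : Type) [CommRing R] (σ : Type) (B : Type) [CommRing B]
    [Algebra (MvPolynomial σ R) B] : Type := {i : σ // uq R B i} → ℤ

/-- the monomial with integral exponents -/
noncomputable def mon (a : HH R σ B) : B := ((∏ i, (i.2 : IsUnit _).unit ^ a i : Bˣ) : B)

theorem isMon_mon : IsMon (mon (R := R) (σ := σ) B) where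
  zero := by
    unfold mon
    simp
  add a b := by
    unfold mon
    rw [← Units.val_mul, ← Finset.prod_mul_distrib]
    congr 2
    funext i
    rw [Pi.add_apply, zpow_add]

theorem mon_single (i : σ) (hi : uq R B i) :
    mon B (Pi.single ⟨i, hi⟩ 1) = algebraMap (MvPolynomial σ R) B (X i) := by
  unfold mon
  rw [Finset.prod_eq_single (⟨i, hi⟩ : {i : σ // uq R B i})]
  · rw [Pi.single_eq_same, zpow_one]
    rfl
  · intro j _ hj
    rw [Pi.single_eq_of_ne hj, zpow_zero]
  · intro h
    exact absurd (Finset.mem_univ _) h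

/-- the monomials of `f l` which do not vanish in `B` -/
noncomputable def supE (l : κ) : Finset (σ →₀ ℕ) :=
  (f l).support.filter fun m => Sup (uq R B) m ∧
    IsUnit (algebraMap (MvPolynomial σ R) B (C (coeff m (f l))))

/-- the group generated by the differences of exponents -/
noncomputable def Lam : AddSubgroup (HH R σ B) :=
  AddSubgroup.closure {d | ∃ l, ∃ m ∈ supE f B l, ∃ m' ∈ supE f B l,
    d = res (uq R B) m - res (uq R B) m'}

/-- the inverses of the coefficients -/
def cof : Set B :=
  {b | ∃ l, ∃ m ∈ (f l).support, algebraMap R B (coeff m (f l)) * b = 1}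

variable {K : Type} [AddCommGroup K] (p : HH R σ B →+ K) (s : K →+ HH R σ B)
  (hs : ∀ a, p (s a) = a)

/-- the part of degree zero -/
noncomputable def Cal : Subalgebra R B :=
  Algebra.adjoin R (cof f B ∪ {b | ∃ a, p a = 0 ∧ b = mon B a})

theorem mon_mem (a : HH R σ B) (ha : p a = 0) : mon B a ∈ Cal f B p :=
  Algebra.subset_adjoin (Or.inr ⟨a, ha, rfl⟩)

theorem cof_mem (b : B) (hb : b ∈ cof f B) : b ∈ Cal f B p :=
  Algebra.subset_adjoin (Or.inl hb)

theorem alg_eq (r : R) : algebraMap R B r = algebraMap (MvPolynomial σ R) B (C r) := by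
  rw [IsScalarTower.algebraMap_apply R (MvPolynomial σ R) B, MvPolynomial.algebraMap_eq]

theorem g_f {E : Type} [CommRing E] {h : HH R σ B → E} (hh : IsMon h)
    (g : MvPolynomial σ R →+* E)
    (hg : ∀ i, g (X i) = if hi : uq R B i then h (Pi.single ⟨i, hi⟩ 1) else 0)
    (hC : ∀ l, ∀ m ∈ (f l).support, ¬ IsUnit (algebraMap (MvPolynomial σ R) B
      (C (coeff m (f l)))) → g (C (coeff m (f l))) = 0) (l : κ) :
    g (f l) = ∑ m ∈ supE f B l, g (C (coeff m (f l))) * h (res (uq R B) m) := by
  conv_lhs => rw [(f l).as_sum]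
  rw [map_sum, supE, Finset.sum_filter]
  apply Finset.sum_congr rfl
  intro m hm
  rw [g_monomial hh g hg]
  by_cases h1 : Sup (uq R B) m
  · rw [if_pos h1]
    by_cases h2 : IsUnit (algebraMap (MvPolynomial σ R) B (C (coeff m (f l))))
    · rw [if_pos ⟨h1, h2⟩]
    · rw [if_neg (fun h => h2 h.2), hC l m hm h2, zero_mul]
  · rw [if_neg h1, if_neg (fun h => h1 h.1)]

variable (hB : IsStratum (Ideal.span (Set.range f)) (fns f : Set (MvPolynomial σ R)) B)

include hB

theorem phi_X (i : σ) : algebraMap (MvPolynomial σ R) B (X i) =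
    if hi : uq R B i then mon B (Pi.single ⟨i, hi⟩ 1) else 0 := by
  by_cases hi : uq R B i
  · rw [dif_pos hi, mon_single]
  · rw [dif_neg hi]
    rcases hB.dich (X i) (X_mem_fns f i) with h | h
    · exact absurd h hi
    · exact h

theorem rel (l : κ) :
    ∑ m ∈ supE f B l, algebraMap R B (coeff m (f l)) * mon B (res (uq R B) m) = 0 := by
  have h1 := g_f f B (isMon_mon B) (algebraMap (MvPolynomial σ R) B) (phi_X f B hB)
    (fun l m hm hu => by
      rcases hB.dich _ (C_mem_fns f l m hm) with h | h
      · exact absurd h hu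
      · exact h) l
  rw [hB.zero (f l) (Ideal.subset_span ⟨l, rfl⟩)] at h1
  rw [h1]
  apply Finset.sum_congr rfl
  intro m _
  rw [alg_eq (σ := σ)]

/-- the homomorphism to the graded ring -/
noncomputable def gg : MvPolynomial σ R →+* AddMonoidAlgebra (Cal f B p) K :=
  eval₂Hom ((AddMonoidAlgebra.singleZeroRingHom).comp (algebraMap R (Cal f B p)))
    (fun i => if hi : uq R B i then hom' p s hs (Cal f B p) (mon_mem f B p)
      (Pi.single ⟨i, hi⟩ 1) else 0)

omit hB in
theorem gg_C (r : R) : gg f B p s hs (C r) =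
    AddMonoidAlgebra.single 0 (algebraMap R (Cal f B p) r) := by
  unfold gg
  rw [coe_eval₂Hom, eval₂_C]
  rfl

omit hB in
theorem gg_X (i : σ) : gg f B p s hs (X i) = if hi : uq R B i then
    hom' p s hs (Cal f B p) (mon_mem f B p) (Pi.single ⟨i, hi⟩ 1) else 0 := by
  unfold gg
  rw [coe_eval₂Hom, eval₂_X]

omit hB in
theorem isMon_hom : IsMon (hom' p s hs (Cal f B p) (mon_mem f B p)) where
  zero := hom'_zero (isMon_mon B) p s hs _ _
  add := hom'_add (isMon_mon B) p s hs _ _

theorem back_gg : (back (isMon_mon B) s (Cal f B p)).comp (gg f B p s hs) =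
    algebraMap (MvPolynomial σ R) B := by
  apply MvPolynomial.ringHom_ext
  · intro r
    rw [RingHom.comp_apply, gg_C, back_single, map_zero, (isMon_mon B).zero, mul_one, ← alg_eq]
    rfl
  · intro i
    rw [RingHom.comp_apply, gg_X, phi_X f B hB]
    by_cases hi : uq R B i
    · rw [dif_pos hi, dif_pos hi, back_hom]
    · rw [dif_neg hi, dif_neg hi, map_zero]

theorem alg_zero (l : κ) (m : σ →₀ ℕ) (hm : m ∈ (f l).support)
    (hu : ¬ IsUnit (algebraMap (MvPolynomial σ R) B (C (coeff m (f l))))) :
    algebraMap R (Cal f B p) (coeff m (f l)) = 0 := by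
  apply Subtype.ext
  change algebraMap R B (coeff m (f l)) = 0
  rw [alg_eq (σ := σ)]
  rcases hB.dich _ (C_mem_fns f l m hm) with h | h
  · exact absurd h hu
  · exact h

variable (hp : ∀ a, p a = 0 ↔ ∃ n : ℕ, 0 < n ∧ n • a ∈ Lam f B)

include hp

theorem gg_f (l : κ) : gg f B p s hs (f l) = 0 := by
  have h1 := g_f f B (isMon_hom f B p s hs) (gg f B p s hs) (gg_X f B p s hs)
    (fun l m hm hu => by
      rw [gg_C, alg_zero f B p hB l m hm hu, AddMonoidAlgebra.single_zero]) l
  have hz : (back (isMon_mon B) s (Cal f B p)) (gg f B p s hs (f l)) = 0 := by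
    rw [← RingHom.comp_apply, back_gg f B p s hs hB]
    exact hB.zero (f l) (Ideal.subset_span ⟨l, rfl⟩)
  by_cases he : supE f B l = ∅
  · rw [h1, he, Finset.sum_empty]
  · obtain ⟨m0, hm0⟩ := Finset.nonempty_iff_ne_empty.mpr he
    have h2 : ∃ c : Cal f B p, gg f B p s hs (f l) =
        AddMonoidAlgebra.single (p (res (uq R B) m0)) c := by
      rw [h1]
      have h3 : ∀ m ∈ supE f B l, ∃ c : Cal f B p, gg f B p s hs (C (coeff m (f l))) *
          hom' p s hs (Cal f B p) (mon_mem f B p) (res (uq R B) m) =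
          AddMonoidAlgebra.single (p (res (uq R B) m0)) c := by
        intro m hm
        have h4 : p (res (uq R B) m) = p (res (uq R B) m0) := by
          rw [← sub_eq_zero, ← map_sub, hp]
          refine ⟨1, one_pos, ?_⟩
          rw [one_smul]
          exact AddSubgroup.subset_closure ⟨l, m, hm, m0, hm0, rfl⟩
        refine ⟨algebraMap R (Cal f B p) (coeff m (f l)) *
          ⟨mon B (res (uq R B) m - s (p (res (uq R B) m))), mon_mem f B p _ (p_sub p s hs _)⟩, ?_⟩
        rw [gg_C]
        unfold hom'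
        rw [AddMonoidAlgebra.single_mul_single, zero_add]
        exact congrArg (fun a => AddMonoidAlgebra.single a _) h4
      choose! c hc using h3
      refine ⟨∑ m ∈ supE f B l, c m, ?_⟩
      rw [Finset.sum_congr rfl hc]
      exact (map_sum (AddMonoidAlgebra.singleAddHom (p (res (uq R B) m0))) c (supE f B l)).symm
    obtain ⟨c, hc⟩ := h2
    rw [hc, back_single] at hz
    have h5 : (c : B) = 0 := by
      have hu := mon_unit (isMon_mon B) (s (p (res (uq R B) m0)))
      exact hu.mul_left_eq_zero.mp hz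
    have h6 : c = 0 := Subtype.ext h5
    rw [hc, h6, AddMonoidAlgebra.single_zero]

end cell

end Pool.Agent.E8helper74.BA
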