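import Pool.Agent.E8helper74.BA.Cell2

/-!
# The strata of a system of polynomial equations: the isomorphism and the dimension
-/

set_option autoImplicit false
set_option linter.unusedSectionVars false

open MvPolynomial

namespace Pool.Agent.E8helper74.BA

theorem IsMon.ext {ι E : Type} [Fintype ι] [DecidableEq ι] [CommRing E] {h h' : (ι → ℤ) → E} (hh : IsMon h)
    (hh' : IsMon h') (he : ∀ i, h (Pi.single i 1) = h' (Pi.single i 1)) (a : ι → ℤ) :
    h a = h' a := by
  let S : AddSubgroup (ι → ℤ) :=
    { carrier := {a | h a = h' a}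
      zero_mem' := by
        change h 0 = h' 0
        rw [hh.zero, hh'.zero]
      add_mem' := by
        intro a b ha hb
        change h (a + b) = h' (a + b)
        rw [hh.add, hh'.add, show h a = h' a from ha, show h b = h' b from hb]
      neg_mem' := by
        intro a ha
        change h (-a) = h' (-a)
        have h1 := hh.neg_mul a
        have h2 := hh'.neg_mul a
        rw [← show h a = h' a from ha, ← h1] at h2
        exact ((mon_unit hh a).mul_left_injective h2).symm }
  have h1 : a ∈ S := by
    rw [← Finset.univ_sum_single a]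
    refine sum_mem fun i _ => ?_
    have h2 : Pi.single i (a i) = a i • (Pi.single i 1 : ι → ℤ) := by
      rw [← Pi.single_smul, smul_eq_mul, mul_one]
    rw [h2]
    exact zsmul_mem (he i) _
  exact h1

attribute [local instance] Classical.propDecidable

section cell

variable {R : Type} [CommRing R] {σ κ : Type} [Fintype σ] [Fintype κ] (f : κ → MvPolynomial σ R)
variable (B : Type) [CommRing B] [Algebra (MvPolynomial σ R) B] [Algebra R B]
  [IsScalarTower R (MvPolynomial σ R) B]
variable {K : Type} [AddCommGroup K] (p : HH R σ B →+ K) (s : K →+ HH R σ B)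
  (hs : ∀ a, p (s a) = a)
variable (hB : IsStratum (Ideal.span (Set.range f)) (fns f : Set (MvPolynomial σ R)) B)

include hB

theorem cof_exists (l : κ) (m : σ →₀ ℕ) (hm : m ∈ (f l).support)
    (hu : IsUnit (algebraMap (MvPolynomial σ R) B (C (coeff m (f l))))) :
    ∃ b : Cal f B p, algebraMap R (Cal f B p) (coeff m (f l)) * b = 1 := by
  obtain ⟨b, hb⟩ := hu.exists_right_inv
  rw [← alg_eq] at hb
  exact ⟨⟨b, cof_mem f B p b ⟨l, m, hm, hb⟩⟩, Subtype.ext hb⟩

variable (hp : ∀ a, p a = 0 ↔ ∃ n : ℕ, 0 < n ∧ n • a ∈ Lam f B)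

include hp s hs

theorem cell_iso [Nontrivial B] : Nonempty (B ≃+* AddMonoidAlgebra (Cal f B p) K) := by
  obtain ⟨Θ, hΘ⟩ := hB.lift (AddMonoidAlgebra (Cal f B p) K) (gg f B p s hs) (by
      have hle : Ideal.span (Set.range f) ≤ RingHom.ker (gg f B p s hs) := by
        rw [Ideal.span_le]
        rintro _ ⟨l, rfl⟩
        exact gg_f f B p s hs hB hp l
      intro a ha
      exact hle ha) (by
      intro a ha h0
      rcases mem_fns f ha with ⟨i, rfl⟩ | ⟨l, m, hm, rfl⟩
      · rw [gg_X, dif_neg]
        intro hi
        unfold uq at hi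
        rw [h0] at hi
        exact not_isUnit_zero hi
      · rw [gg_C]
        have h1 : algebraMap R (Cal f B p) (coeff m (f l)) = 0 := by
          apply Subtype.ext
          change algebraMap R B (coeff m (f l)) = 0
          rw [alg_eq (σ := σ), h0]
        rw [h1, AddMonoidAlgebra.single_zero]) (by
      intro a ha hu
      rcases mem_fns f ha with ⟨i, rfl⟩ | ⟨l, m, hm, rfl⟩
      · rw [gg_X, dif_pos (show uq R B i from hu)]
        exact mon_unit (isMon_hom f B p s hs) _
      · rw [gg_C]
        obtain ⟨b, hb⟩ := cof_exists f B p hB l m hm hu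
        have h1 : IsUnit (algebraMap R (Cal f B p) (coeff m (f l))) := IsUnit.of_mul_eq_one b hb
        exact h1.map (AddMonoidAlgebra.singleZeroRingHom (R := Cal f B p) (M := K)))
  have hΘa : ∀ a : MvPolynomial σ R, Θ (algebraMap _ B a) = gg f B p s hs a :=
    fun a => RingHom.congr_fun hΘ a
  have h1 : ∀ a : HH R σ B, Θ (mon B a) = hom' p s hs (Cal f B p) (mon_mem f B p) a := by
    intro a
    refine IsMon.ext (h := fun a => Θ (mon B a)) ?_ (isMon_hom f B p s hs) ?_ a
    · refine ⟨?_, fun a b => ?_⟩
      · rw [(isMon_mon B).zero, map_one]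
      · rw [(isMon_mon B).add, map_mul]
    · rintro ⟨i, hi⟩
      rw [mon_single, hΘa, gg_X, dif_pos hi]
  have hR : ∀ r : R, Θ (algebraMap R B r) =
      AddMonoidAlgebra.single 0 (algebraMap R (Cal f B p) r) := by
    intro r
    rw [alg_eq (σ := σ), hΘa, gg_C]
  have h2 : ∀ c : Cal f B p, Θ (c : B) = AddMonoidAlgebra.single 0 c := by
    rintro ⟨c, hc⟩
    change Θ c = _
    induction hc using Algebra.adjoin_induction with
    | mem x hx =>
      rcases hx with ⟨l, m, hm, hb⟩ | ⟨a, ha, rfl⟩
      · have h3 := congrArg Θ hb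
        rw [map_mul, map_one, hR] at h3
        have h4 : (AddMonoidAlgebra.single 0 (algebraMap R (Cal f B p) (coeff m (f l))) :
            AddMonoidAlgebra (Cal f B p) K) * AddMonoidAlgebra.single 0
              (⟨x, cof_mem f B p x ⟨l, m, hm, hb⟩⟩ : Cal f B p) = 1 := by
          rw [AddMonoidAlgebra.single_mul_single, zero_add, AddMonoidAlgebra.one_def]
          congr 1
          exact Subtype.ext hb
        have hu : IsUnit (AddMonoidAlgebra.single 0 (algebraMap R (Cal f B p) (coeff m (f l))) :
            AddMonoidAlgebra (Cal f B p) K) := IsUnit.of_mul_eq_one _ h4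
        exact hu.mul_right_injective (h3.trans h4.symm)
      · rw [h1]
        unfold hom'
        congr 1
        apply Subtype.ext
        change mon B (a - s (p a)) = mon B a
        rw [ha, map_zero, sub_zero]
    | algebraMap r => exact hR r
    | add x y hx hy ihx ihy =>
      rw [map_add, ihx, ihy, ← AddMonoidAlgebra.single_add]
      rfl
    | mul x y hx hy ihx ihy =>
      rw [map_mul, ihx, ihy, AddMonoidAlgebra.single_mul_single, zero_add]
      rfl
  refine torus_iso (isMon_mon B) p s hs (Cal f B p) (mon_mem f B p) Θ h1 h2 ?_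
  intro g hg1 hg2
  refine hB.ext B g (RingHom.id B) (MvPolynomial.ringHom_ext ?_ ?_)
  · intro r
    rw [RingHom.comp_apply, RingHom.comp_apply, RingHom.id_apply, ← alg_eq]
    exact hg2 (algebraMap R (Cal f B p) r)
  · intro i
    rw [RingHom.comp_apply, RingHom.comp_apply, RingHom.id_apply, phi_X f B hB]
    by_cases hi : uq R B i
    · rw [dif_pos hi, hg1]
    · rw [dif_neg hi, map_zero]

end cell

end Pool.Agent.E8helper74.BA
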