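import Pool.Agent.E8helper74.BA.Cell3

/-!
# The strata of a system of polynomial equations: the dimension
-/

set_option autoImplicit false
set_option linter.unusedSectionVars false

open MvPolynomial

attribute [local instance] Classical.propDecidable

namespace Pool.Agent.E8helper74.BA

section cell

variable {R : Type} [CommRing R] {σ κ : Type} [Fintype σ] [Fintype κ] (f : κ → MvPolynomial σ R)
variable (B : Type) [CommRing B] [Algebra (MvPolynomial σ R) B] [Algebra R B]
  [IsScalarTower R (MvPolynomial σ R) B]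
variable {K : Type} [AddCommGroup K] (p : HH R σ B →+ K)
variable (hB : IsStratum (Ideal.span (Set.range f)) (fns f : Set (MvPolynomial σ R)) B)
variable (hp : ∀ a, p a = 0 ↔ ∃ n : ℕ, 0 < n ∧ n • a ∈ Lam f B)
variable (m0 m1 : κ → (σ →₀ ℕ))

/-- the indices of the remaining monomials -/
abbrev Idx : Type := (l : κ) × {m // m ∈ ((supE f B l).erase (m0 l)).erase (m1 l)}

include hp in
theorem p_res {l : κ} {m m' : σ →₀ ℕ} (hm : m ∈ supE f B l) (hm' : m' ∈ supE f B l) :
    p (res (uq R B) m - res (uq R B) m') = 0 := by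
  rw [hp]
  refine ⟨1, one_pos, ?_⟩
  rw [one_smul]
  exact AddSubgroup.subset_closure ⟨l, m, hm, m', hm', rfl⟩

/-- the element of the subalgebra -/
noncomputable def mc (a : HH R σ B) (ha : p a = 0) : Cal f B p := ⟨mon B a, mon_mem f B p a ha⟩

theorem mc_unit (a : HH R σ B) (ha : p a = 0) : IsUnit (mc f B p a ha) := by
  have h1 : p (-a) = 0 := by rw [map_neg, ha, neg_zero]
  refine IsUnit.of_mul_eq_one (mc f B p (-a) h1) (Subtype.ext ?_)
  change mon B a * mon B (-a) = 1
  rw [mul_comm]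
  exact (isMon_mon B).neg_mul a

variable (hm : ∀ l, supE f B l = ∅ ∨ (m0 l ∈ supE f B l ∧ m1 l ∈ supE f B l ∧ m0 l ≠ m1 l))

theorem idx_mem (u : Idx f B m0 m1) : u.2.1 ∈ supE f B u.1 :=
  Finset.mem_of_mem_erase (Finset.mem_of_mem_erase u.2.2)

include hm in
theorem idx_zero_mem (u : Idx f B m0 m1) : m0 u.1 ∈ supE f B u.1 := by
  rcases hm u.1 with h | h
  · exact absurd (idx_mem f B m0 m1 u) (Finset.eq_empty_iff_forall_notMem.mp h _)
  · exact h.1

/-- the parametrization -/
noncomputable def psi : MvPolynomial (Idx f B m0 m1) R →ₐ[R] Cal f B p :=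
  aeval fun u => mc f B p (res (uq R B) u.2.1 - res (uq R B) (m0 u.1))
    (p_res f B p hp (idx_mem f B m0 m1 u) (idx_zero_mem f B m0 m1 hm u))

theorem psi_X (u : Idx f B m0 m1) : ((psi f B p hp m0 m1 hm (X u) : Cal f B p) : B) =
    mon B (res (uq R B) u.2.1 - res (uq R B) (m0 u.1)) := by
  unfold psi
  rw [aeval_X]
  rfl

theorem psi_C (r : R) : psi f B p hp m0 m1 hm (C r) = algebraMap R (Cal f B p) r := by
  unfold psi
  rw [aeval_C]

/-- the exponents which are quotients of elements of the image -/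
noncomputable def TT : AddSubgroup (HH R σ B) where
  carrier := {a | ∃ q1 q2 : MvPolynomial (Idx f B m0 m1) R, IsUnit (psi f B p hp m0 m1 hm q1) ∧
    IsUnit (psi f B p hp m0 m1 hm q2) ∧ mon B a * (psi f B p hp m0 m1 hm q2 : B) =
      (psi f B p hp m0 m1 hm q1 : B)}
  zero_mem' := ⟨1, 1, by rw [map_one]; exact isUnit_one, by rw [map_one]; exact isUnit_one, by
    rw [(isMon_mon B).zero, one_mul]⟩
  add_mem' := by
    rintro a b ⟨q1, q2, h1, h2, h3⟩ ⟨q1', q2', h1', h2', h3'⟩
    refine ⟨q1 * q1', q2 * q2', ?_, ?_, ?_⟩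
    · rw [map_mul]
      exact h1.mul h1'
    · rw [map_mul]
      exact h2.mul h2'
    · rw [map_mul, map_mul, (isMon_mon B).add, Subalgebra.coe_mul, Subalgebra.coe_mul, ← h3, ← h3']
      ring
  neg_mem' := by
    rintro a ⟨q1, q2, h1, h2, h3⟩
    refine ⟨q2, q1, h2, h1, ?_⟩
    rw [← h3, ← mul_assoc, (isMon_mon B).neg_mul, one_mul]

include hB in
theorem mem_TT {l : κ} {m : σ →₀ ℕ} (hml : m ∈ supE f B l) :
    res (uq R B) m - res (uq R B) (m0 l) ∈ TT f B p hp m0 m1 hm := by
  have h0 : m0 l ∈ supE f B l ∧ m1 l ∈ supE f B l ∧ m0 l ≠ m1 l := by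
    rcases hm l with h | h
    · rw [h] at hml
      exact absurd hml (Finset.notMem_empty _)
    · exact h
  by_cases e0 : m = m0 l
  · rw [e0, sub_self]
    exact zero_mem _
  by_cases e1 : m = m1 l
  · subst e1
    have hpm := p_res f B p hp h0.2.1 h0.1
    have hsup : ∀ m ∈ supE f B l, m ∈ (f l).support ∧
        IsUnit (algebraMap (MvPolynomial σ R) B (C (coeff m (f l)))) := fun m hm => by
      rw [supE, Finset.mem_filter] at hm
      exact ⟨hm.1, hm.2.2⟩
    have hr := rel f B hB l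
    have hr2 : ∑ m ∈ supE f B l, algebraMap R B (coeff m (f l)) *
        mon B (res (uq R B) m - res (uq R B) (m0 l)) = 0 := by
      have h1 := congrArg (fun b => b * mon B (-res (uq R B) (m0 l))) hr
      simp only [zero_mul, Finset.sum_mul] at h1
      rw [← h1]
      apply Finset.sum_congr rfl
      intro m _
      rw [sub_eq_add_neg, (isMon_mon B).add, mul_assoc]
    rw [← Finset.add_sum_erase _ _ h0.1, ← Finset.add_sum_erase _ _
      (Finset.mem_erase.mpr ⟨h0.2.2.symm, h0.2.1⟩), sub_self, (isMon_mon B).zero, mul_one] at hr2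
    let q1 : MvPolynomial (Idx f B m0 m1) R := -(C (coeff (m0 l) (f l)) +
      ∑ m : {m // m ∈ ((supE f B l).erase (m0 l)).erase (m1 l)},
        C (coeff m.1 (f l)) * X (⟨l, m⟩ : Idx f B m0 m1))
    have hq1 : mon B (res (uq R B) (m1 l) - res (uq R B) (m0 l)) *
        (psi f B p hp m0 m1 hm (C (coeff (m1 l) (f l))) : B) =
        (psi f B p hp m0 m1 hm q1 : B) := by
      have h2 : ((psi f B p hp m0 m1 hm q1 : Cal f B p) : B) =
          -(algebraMap R B (coeff (m0 l) (f l)) +
            ∑ m ∈ ((supE f B l).erase (m0 l)).erase (m1 l), algebraMap R B (coeff m (f l)) *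
              mon B (res (uq R B) m - res (uq R B) (m0 l))) := by
        rw [← Finset.sum_coe_sort]
        simp only [q1, map_neg, map_add, map_sum, map_mul, psi_C]
        rw [Subalgebra.coe_neg, Subalgebra.coe_add, AddSubmonoidClass.coe_finsetSum]
        congr 2
        apply Finset.sum_congr rfl
        intro m _
        rw [Subalgebra.coe_mul, psi_X]
        rfl
      rw [h2, psi_C]
      change _ * algebraMap R B (coeff (m1 l) (f l)) = _
      linear_combination hr2
    have hq2 : IsUnit (psi f B p hp m0 m1 hm (C (coeff (m1 l) (f l)))) := by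
      rw [psi_C]
      obtain ⟨b, hb⟩ := cof_exists f B p hB l (m1 l) (hsup _ h0.2.1).1 (hsup _ h0.2.1).2
      exact IsUnit.of_mul_eq_one b hb
    refine ⟨q1, C (coeff (m1 l) (f l)), ?_, hq2, hq1⟩
    have h3 : psi f B p hp m0 m1 hm q1 = mc f B p _ hpm *
        psi f B p hp m0 m1 hm (C (coeff (m1 l) (f l))) := Subtype.ext hq1.symm
    rw [h3]
    exact (mc_unit f B p _ hpm).mul hq2
  · have hmem : m ∈ ((supE f B l).erase (m0 l)).erase (m1 l) :=
      Finset.mem_erase.mpr ⟨e1, Finset.mem_erase.mpr ⟨e0, hml⟩⟩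
    have hpm := p_res f B p hp hml h0.1
    have h3 : psi f B p hp m0 m1 hm (X ⟨l, ⟨m, hmem⟩⟩) = mc f B p _ hpm :=
      Subtype.ext (psi_X f B p hp m0 m1 hm _)
    refine ⟨X ⟨l, ⟨m, hmem⟩⟩, 1, ?_, ?_, ?_⟩
    · rw [h3]
      exact mc_unit f B p _ hpm
    · rw [map_one]
      exact isUnit_one
    · rw [h3, map_one]
      change mon B _ * 1 = mon B _
      rw [mul_one]

include hB in
theorem lam_le : Lam f B ≤ TT f B p hp m0 m1 hm := by
  unfold Lam
  rw [AddSubgroup.closure_le]
  rintro _ ⟨l, m, hml, m', hml', rfl⟩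
  have h1 := sub_mem (mem_TT f B p hB hp m0 m1 hm hml) (mem_TT f B p hB hp m0 m1 hm hml')
  rwa [sub_sub_sub_cancel_right] at h1

include hB hp hm in
theorem cell_dim : ringKrullDim (Cal f B p) ≤ ringKrullDim (MvPolynomial (Idx f B m0 m1) R) := by
  let G : Set (Cal f B p) := Set.range (algebraMap R (Cal f B p)) ∪ {b | (b : B) ∈ cof f B} ∪
    {b | ∃ a, ∃ ha : p a = 0, b = mc f B p a ha}
  refine dim_gen (psi f B p hp m0 m1 hm : MvPolynomial (Idx f B m0 m1) R →+* Cal f B p) G ?_ ?_
  · rw [eq_top_iff]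
    rintro ⟨c, hc⟩ -
    induction hc using Algebra.adjoin_induction with
    | mem x hx =>
      apply Subring.subset_closure
      rcases hx with hx | ⟨a, ha, rfl⟩
      · exact Or.inl (Or.inr hx)
      · exact Or.inr ⟨a, ha, rfl⟩
    | algebraMap r => exact Subring.subset_closure (Or.inl (Or.inl ⟨r, rfl⟩))
    | add x y hx hy ihx ihy => exact add_mem ihx ihy
    | mul x y hx hy ihx ihy => exact mul_mem ihx ihy
  · rintro g ((⟨r, rfl⟩ | ⟨l, m, hml, hg⟩) | ⟨a, ha, rfl⟩)
    · refine ⟨1, C r, 1, one_pos, ?_, ?_⟩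
      · rw [map_one]
        exact isUnit_one
      · rw [map_one, mul_one, pow_one]
        exact (psi_C f B p hp m0 m1 hm r).symm
    · have h1 : algebraMap R (Cal f B p) (coeff m (f l)) * g = 1 := Subtype.ext hg
      have h2 : (psi f B p hp m0 m1 hm : MvPolynomial (Idx f B m0 m1) R →+* Cal f B p)
          (C (coeff m (f l))) = algebraMap R (Cal f B p) (coeff m (f l)) :=
        psi_C f B p hp m0 m1 hm _
      refine ⟨1, 1, C (coeff m (f l)), one_pos, ?_, ?_⟩
      · rw [h2]
        exact IsUnit.of_mul_eq_one g h1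
      · rw [h2, pow_one, map_one, mul_comm, h1]
    · obtain ⟨n, hn, hna⟩ := (hp a).mp ha
      obtain ⟨q1, q2, h1, h2, h3⟩ := lam_le f B p hB hp m0 m1 hm hna
      refine ⟨n, q1, q2, hn, h2, Subtype.ext ?_⟩
      change mon B a ^ n * _ = _
      rw [← (isMon_mon B).nsmul]
      exact h3

end cell

end Pool.Agent.E8helper74.BA
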