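import Pool.Agent.E8helper74.BA.DimTor

/-!
# Schemes whose coordinate strata have quotients by tori of small dimension
-/

set_option autoImplicit false
set_option linter.unusedSectionVars false

open MvPolynomial

attribute [local instance] Classical.propDecidable

namespace Pool.Agent.E8helper74.BA

section

variable {R : Type} [CommRing R] {σ κ : Type} [Fintype σ] [Fintype κ] (f : κ → MvPolynomial σ R)

/-- The group generated by the differences of the exponents of two monomials of the same `f l`, both in
the variables `x_i`, `i` in `U`. -/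
def lamU (U : Finset σ) : Submodule ℤ (σ → ℤ) :=
  Submodule.span ℤ {d | ∃ l, ∃ m ∈ (f l).support, ∃ m' ∈ (f l).support, m.support ⊆ U ∧
    m'.support ⊆ U ∧ d = fun i => (m i : ℤ) - (m' i : ℤ)}

/-- The points of `f = 0` at which exactly the coordinates `x_i`, `i` in `U`, are different from zero. -/
def cell (U : Finset σ) : Set (PrimeSpectrum (MvPolynomial σ R ⧸ Ideal.span (Set.range f))) :=
  {x | ∀ i, Ideal.Quotient.mk (Ideal.span (Set.range f)) (X i) ∉ x.asIdeal ↔ i ∈ U}

/-- extension by zero -/
noncomputable def extZ (B : Type) [CommRing B] [Algebra (MvPolynomial σ R) B] : HH R σ B →ₗ[ℤ] (σ → ℤ) where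
  toFun a i := if h : uq R B i then a ⟨i, h⟩ else 0
  map_add' a b := by
    funext i
    by_cases h : uq R B i
    · simp [h]
    · simp [h]
  map_smul' c a := by
    funext i
    by_cases h : uq R B i
    · simp [h]
    · simp [h]

theorem extZ_inj (B : Type) [CommRing B] [Algebra (MvPolynomial σ R) B] :
    Function.Injective (extZ (R := R) (σ := σ) B) := by
  intro a b hab
  funext i
  have h1 := congrFun hab i.1
  change (if h : uq R B i.1 then a ⟨i.1, h⟩ else 0) = (if h : uq R B i.1 then b ⟨i.1, h⟩ else 0) at h1
  rw [dif_pos i.2, dif_pos i.2] at h1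
  exact h1

theorem extZ_res (B : Type) [CommRing B] [Algebra (MvPolynomial σ R) B] (m : σ →₀ ℕ)
    (hm : Sup (uq R B) m) : extZ B (res (uq R B) m) = fun i => (m i : ℤ) := by
  funext i
  change (if h : uq R B i then ((m i : ℕ) : ℤ) else 0) = _
  by_cases h : uq R B i
  · rw [dif_pos h]
  · rw [dif_neg h]
    have : m i = 0 := by
      by_contra h1
      exact h (hm i h1)
    rw [this]
    rfl

theorem rank_lam (B : Type) [CommRing B] [Algebra (MvPolynomial σ R) B] [Algebra R B]
    [IsScalarTower R (MvPolynomial σ R) B] :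
    Module.finrank ℤ (AddSubgroup.toIntSubmodule (Lam f B)) ≤
      Module.finrank ℤ (lamU f (Finset.univ.filter (uq R B))) := by
  have h1 : (AddSubgroup.toIntSubmodule (Lam f B)).map (extZ B) ≤
      lamU f (Finset.univ.filter (uq R B)) := by
    rintro _ ⟨a, ha, rfl⟩
    have ha' : a ∈ Lam f B := ha
    unfold Lam at ha'
    induction ha' using AddSubgroup.closure_induction with
    | mem x hx =>
      obtain ⟨l, m, hm, m', hm', rfl⟩ := hx
      rw [supE, Finset.mem_filter] at hm hm'
      rw [map_sub, extZ_res B m hm.2.1, extZ_res B m' hm'.2.1]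
      refine Submodule.subset_span ⟨l, m, hm.1, m', hm'.1, ?_, ?_, rfl⟩
      · intro i hi
        rw [Finset.mem_filter]
        exact ⟨Finset.mem_univ _, hm.2.1 i (Finsupp.mem_support_iff.mp hi)⟩
      · intro i hi
        rw [Finset.mem_filter]
        exact ⟨Finset.mem_univ _, hm'.2.1 i (Finsupp.mem_support_iff.mp hi)⟩
    | zero =>
      rw [map_zero]
      exact zero_mem _
    | add x y hx hy ihx ihy =>
      rw [map_add]
      exact add_mem (ihx hx) (ihy hy)
    | neg x hx ihx =>
      rw [map_neg]
      exact neg_mem (ihx hx)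
  rw [(Submodule.equivMapOfInjective (extZ B) (extZ_inj B)
    (AddSubgroup.toIntSubmodule (Lam f B))).finrank_eq]
  exact Submodule.finrank_mono h1

theorem dim_cell (B : Type) [CommRing B] [Nontrivial B] [Algebra (MvPolynomial σ R) B] [Algebra R B]
    [IsScalarTower R (MvPolynomial σ R) B]
    (hB : IsStratum (Ideal.span (Set.range f)) (fns f : Set (MvPolynomial σ R)) B) :
    ringKrullDim B ≤ topologicalKrullDim (cell f (Finset.univ.filter (uq R B))) := by
  let g : (MvPolynomial σ R ⧸ Ideal.span (Set.range f)) →+* B :=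
    Ideal.Quotient.lift _ (algebraMap (MvPolynomial σ R) B) hB.zero
  have h1 : Topology.IsInducing (PrimeSpectrum.comap g) := by
    apply inducing_comap
    intro b
    obtain ⟨a, w, -, hw, hb⟩ := hB.gen b
    exact ⟨Ideal.Quotient.mk _ a, Ideal.Quotient.mk _ w, hw, hb⟩
  have h2 : ∀ P, PrimeSpectrum.comap g P ∈ cell f (Finset.univ.filter (uq R B)) := by
    intro P i
    rw [Finset.mem_filter]
    change algebraMap (MvPolynomial σ R) B (X i) ∉ P.asIdeal ↔ _
    constructor
    · intro h
      refine ⟨Finset.mem_univ _, ?_⟩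
      rcases hB.dich (X i) (X_mem_fns f i) with h3 | h3
      · exact h3
      · rw [h3] at h
        exact absurd (zero_mem _) h
    · rintro ⟨-, h⟩ h3
      exact P.isPrime.ne_top (Ideal.eq_top_of_isUnit_mem _ h3 h)
  rw [← PrimeSpectrum.topologicalKrullDim_eq_ringKrullDim]
  exact (h1.codRestrict h2).topologicalKrullDim_le

theorem criterion [Algebra.FiniteType ℤ R] {F : ∀ (B : Type) [CommRing B], Prop} {d : ℕ}
    (hF : Good F d)
    (h : ∀ U : Finset σ, topologicalKrullDim (cell f U) ≤
      ((d + (U.card - Module.finrank ℤ (lamU f U)) : ℕ) : WithBot ℕ∞)) :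
    F (MvPolynomial σ R ⧸ Ideal.span (Set.range f)) := by
  have hA := ftZ (C := R) (D := MvPolynomial σ R) inferInstance
  refine strat (A := MvPolynomial σ R) (Ideal.span (Set.range f)) (fns f) F hF.glue ?_
  intro B _ _ hB
  have hBft : Algebra.FiniteType ℤ B := Algebra.FiniteType.trans (S := MvPolynomial σ R) hA hB.ft
  rcases subsingleton_or_nontrivial B with hs | hn
  · refine hF.dim B ?_
    rw [ringKrullDim_eq_bot_of_subsingleton]
    exact bot_le
  · let _ : Algebra R B := ((algebraMap (MvPolynomial σ R) B).comp C).toAlgebra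
    have hT : IsScalarTower R (MvPolynomial σ R) B := IsScalarTower.of_algebraMap_eq fun r => rfl
    obtain ⟨r, p, s, hs, hp, hr⟩ := exists_split (HH R σ B) (Lam f B)
    obtain ⟨e⟩ := cell_iso f B p s hs hB hp
    have h1 := ft_equiv e
    have h2 : Algebra.FiniteType ℤ (Cal f B p) := by
      let g : AddMonoidAlgebra (Cal f B p) (Fin r → ℤ) →+* Cal f B p :=
        AddMonoidAlgebra.liftNCRingHom (RingHom.id _) 1 (fun _ _ => Commute.all _ _)
      refine Algebra.FiniteType.of_surjective g.toIntAlgHom ?_
      intro c
      refine ⟨AddMonoidAlgebra.single 0 c, ?_⟩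
      change g _ = c
      rw [AddMonoidAlgebra.liftNCRingHom_single]
      simp
    have h3 : F (Cal f B p) := by
      refine hF.dim _ ?_
      have h4 := dim_torus (Cal f B p) r
      rw [← ringKrullDim_eq_of_ringEquiv e] at h4
      have h5 := (h4.trans (dim_cell f B hB)).trans (h _)
      have h6 := rank_lam f B
      rw [Module.finrank_fintype_fun_eq_card,
        Fintype.card_of_subtype (Finset.univ.filter (uq (σ := σ) R B)) (by simp)] at hr
      have h7 : d + ((Finset.univ.filter (uq (σ := σ) R B)).card -
          Module.finrank ℤ (lamU f (Finset.univ.filter (uq R B)))) ≤ d + r := by omega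
      have h8 : ringKrullDim (Cal f B p) + (r : WithBot ℕ∞) ≤ (d : WithBot ℕ∞) + (r : WithBot ℕ∞) := by
        refine h5.trans ?_
        exact_mod_cast h7
      exact ENat.WithBot.add_le_add_natCast_right_iff.mp h8
    exact hF.iso _ _ e.symm (torus_up hF _ h3 r)

end

end Pool.Agent.E8helper74.BA
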