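import Pool.Agent.E8helper74.BA.Few

/-!
# Dimension of tori over a ring, and of strata
-/

set_option autoImplicit false

open scoped nonZeroDivisors

namespace Pool.Agent.E8helper74.BA

theorem T_sub_one_mem (C : Type) [CommRing C] :
    (LaurentPolynomial.T 1 - 1 : LaurentPolynomial C) ∈ (LaurentPolynomial C)⁰ := by
  rw [mem_nonZeroDivisors_iff_right]
  intro x hx
  have h1 : x * LaurentPolynomial.T 1 = x := by
    linear_combination hx
  have h2 : ∀ n : ℤ, x.coeff n = x.coeff (n + 1) := by
    intro n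
    have h3 := AddMonoidAlgebra.coeff_mul_single_apply x (1 : C) (1 : ℤ) (n + 1)
    have h4 : x * AddMonoidAlgebra.single (1 : ℤ) (1 : C) = x := h1
    rw [h4, mul_one] at h3
    rw [h3]
    congr 1
    ring
  by_contra hne
  have hs : x.coeff.support.Nonempty := by
    rw [Finsupp.support_nonempty_iff]
    intro h
    apply hne
    ext n
    rw [h]
    rfl
  obtain ⟨n, hn⟩ := hs
  have h3 : ∀ k : ℕ, x.coeff (n + k) ≠ 0 := by
    intro k
    induction k with
    | zero => simpa using hn
    | succ k ih =>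
      have := h2 (n + k)
      rw [this] at ih
      push_cast
      rwa [← add_assoc]
  have h4 : Set.Infinite (x.coeff.support : Set ℤ) := by
    refine Set.infinite_of_injective_forall_mem (f := fun k : ℕ => n + (k : ℤ)) ?_ ?_
    · intro a b hab
      simpa using hab
    · intro k
      simpa using h3 k
  exact h4 x.coeff.support.finite_toSet

theorem dim_laurent (C : Type) [CommRing C] :
    ringKrullDim C + 1 ≤ ringKrullDim (LaurentPolynomial C) := by
  let g : LaurentPolynomial C →+* C :=
    AddMonoidAlgebra.liftNCRingHom (RingHom.id _) 1 (fun _ _ => Commute.all _ _)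
  have hg : ∀ (n : ℤ) (c : C), g (AddMonoidAlgebra.single n c) = c := by
    intro n c
    change AddMonoidAlgebra.liftNCRingHom _ _ _ _ = c
    rw [AddMonoidAlgebra.liftNCRingHom_single]
    simp
  refine ringKrullDim_succ_le_of_surjective g (fun c => ⟨AddMonoidAlgebra.single 0 c, hg 0 c⟩)
    (T_sub_one_mem C) ?_
  rw [map_sub, map_one, sub_eq_zero]
  exact hg 1 1

theorem dim_torus (C : Type) [CommRing C] (r : ℕ) :
    ringKrullDim C + (r : WithBot ℕ∞) ≤ ringKrullDim (AddMonoidAlgebra C (Fin r → ℤ)) := by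
  induction r with
  | zero =>
    rw [ringKrullDim_eq_of_ringEquiv (AddMonoidAlgebra.uniqueRingEquiv (R := C) (Fin 0 → ℤ))]
    simp
  | succ r ih =>
    have e1 : AddMonoidAlgebra C (Fin (r + 1) → ℤ) ≃+* AddMonoidAlgebra C (ℤ × (Fin r → ℤ)) :=
      (AddMonoidAlgebra.domCongr C C (consAdd r)).toRingEquiv
    have e2 : AddMonoidAlgebra C (ℤ × (Fin r → ℤ)) ≃+*
        LaurentPolynomial (AddMonoidAlgebra C (Fin r → ℤ)) := AddMonoidAlgebra.curryRingEquiv
    rw [ringKrullDim_eq_of_ringEquiv (e1.trans e2)]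
    refine le_trans ?_ (dim_laurent _)
    push_cast
    rw [← add_assoc]
    exact add_le_add_left ih 1

/-- the map of spectra of a localization of a quotient is inducing -/
theorem inducing_comap {A B : Type} [CommRing A] [CommRing B] (g : A →+* B)
    (h : ∀ b : B, ∃ a w : A, IsUnit (g w) ∧ b * g w = g a) :
    Topology.IsInducing (PrimeSpectrum.comap g) := by
  refine ⟨le_antisymm (PrimeSpectrum.continuous_comap g).le_induced ?_⟩
  refine le_of_le_of_eq (le_generateFrom ?_)
    (PrimeSpectrum.isTopologicalBasis_basic_opens (R := B)).eq_generateFrom.symm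
  rintro _ ⟨b, rfl⟩
  obtain ⟨a, w, hw, hb⟩ := h b
  refine ⟨PrimeSpectrum.basicOpen a, (PrimeSpectrum.basicOpen a).2, ?_⟩
  ext P
  change g a ∉ P.asIdeal ↔ b ∉ P.asIdeal
  rw [← hb]
  constructor
  · intro h1 h2
    exact h1 (Ideal.mul_mem_right _ _ h2)
  · intro h1 h2
    rcases P.isPrime.mem_or_mem h2 with h3 | h3
    · exact h1 h3
    · exact P.isPrime.ne_top (Ideal.eq_top_of_isUnit_mem _ h3 hw)

end Pool.Agent.E8helper74.BA
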