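import Pool.Agent.E8helper74.BA.Cell4

/-!
# Properties of systems of polynomial equations with few terms
-/

set_option autoImplicit false
set_option linter.unusedSectionVars false

open MvPolynomial

attribute [local instance] Classical.propDecidable

namespace Pool.Agent.E8helper74.BA

/-- A property of rings of finite type over `ℤ` which is closed under closed-open decompositions and
under passing to `A[t, 1/t]`, and is true in dimension at most `d`. -/
structure Good (F : ∀ (B : Type) [CommRing B], Prop) (d : ℕ) : Prop where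
  iso : ∀ (A B : Type) [CommRing A] [CommRing B] [Algebra.FiniteType ℤ A], (A ≃+* B) → F A → F B
  glue : ∀ (B : Type) [CommRing B] [Algebra.FiniteType ℤ B] (c : B), F (B ⧸ Ideal.span {c}) →
    F (Localization.Away c) → F B
  laurent : ∀ (A : Type) [CommRing A] [Algebra.FiniteType ℤ A], F A → F (LaurentPolynomial A)
  dim : ∀ (A : Type) [CommRing A] [Algebra.FiniteType ℤ A], ringKrullDim A ≤ (d : WithBot ℕ∞) → F A

/-- splitting off the first coordinate -/
def consAdd (r : ℕ) : (Fin (r + 1) → ℤ) ≃+ ℤ × (Fin r → ℤ) where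
  toFun a := (a 0, fun i => a i.succ)
  invFun b := Fin.cons b.1 b.2
  left_inv a := by
    funext i
    refine Fin.cases ?_ (fun i => ?_) i <;> simp
  right_inv b := by
    ext <;> simp
  map_add' a b := rfl

theorem ft_equiv {A B : Type} [CommRing A] [CommRing B] [Algebra.FiniteType ℤ A] (e : A ≃+* B) :
    Algebra.FiniteType ℤ B :=
  Algebra.FiniteType.of_surjective (e : A →+* B).toIntAlgHom e.surjective

theorem ftZ {C D : Type} [CommRing C] [CommRing D] [Algebra C D] [Algebra.FiniteType ℤ C]
    (h : Algebra.FiniteType C D) : Algebra.FiniteType ℤ D :=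
  Algebra.FiniteType.trans (S := C) inferInstance h

theorem ft_torus (C : Type) [CommRing C] [Algebra.FiniteType ℤ C] (r : ℕ) :
    @Algebra.FiniteType ℤ (AddMonoidAlgebra C (Fin r → ℤ)) _ _ (Ring.toIntAlgebra _) :=
  ftZ (C := C) (AddMonoidAlgebra.finiteType_of_fg C (Fin r → ℤ))

theorem torus_up {F : ∀ (B : Type) [CommRing B], Prop} {d : ℕ} (hF : Good F d) (C : Type)
    [CommRing C] [Algebra.FiniteType ℤ C] (hC : F C) (r : ℕ) :
    F (AddMonoidAlgebra C (Fin r → ℤ)) := by
  induction r with
  | zero =>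
    exact hF.iso C _ (AddMonoidAlgebra.uniqueRingEquiv (R := C) (Fin 0 → ℤ)).symm hC
  | succ r ih =>
    have h0 := ft_torus C r
    have h0' := ft_torus C (r + 1)
    have h1 : F (LaurentPolynomial (AddMonoidAlgebra C (Fin r → ℤ))) := hF.laurent _ ih
    have e1 : AddMonoidAlgebra C (Fin (r + 1) → ℤ) ≃+* AddMonoidAlgebra C (ℤ × (Fin r → ℤ)) :=
      (AddMonoidAlgebra.domCongr C C (consAdd r)).toRingEquiv
    have e2 : AddMonoidAlgebra C (ℤ × (Fin r → ℤ)) ≃+*
        LaurentPolynomial (AddMonoidAlgebra C (Fin r → ℤ)) := AddMonoidAlgebra.curryRingEquiv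
    have h2 := ft_equiv (e1.trans e2)
    exact hF.iso _ _ (e1.trans e2).symm h1

section

variable {R : Type} [CommRing R] [Algebra.FiniteType ℤ R] {σ κ : Type} [Fintype σ] [Fintype κ]
  (f : κ → MvPolynomial σ R)

theorem card_idx (B : Type) [CommRing B] [Algebra (MvPolynomial σ R) B] [Algebra R B]
    [IsScalarTower R (MvPolynomial σ R) B] (m0 m1 : κ → (σ →₀ ℕ))
    (hm : ∀ l, supE f B l = ∅ ∨ (m0 l ∈ supE f B l ∧ m1 l ∈ supE f B l ∧ m0 l ≠ m1 l)) :
    Nat.card (Idx f B m0 m1) ≤ ∑ l, ((f l).support.card - 2) := by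
  rw [Nat.card_eq_fintype_card, Fintype.card_sigma]
  apply Finset.sum_le_sum
  intro l _
  rw [Fintype.card_coe]
  have hsub : (supE f B l).card ≤ (f l).support.card := Finset.card_le_card (Finset.filter_subset _ _)
  rcases hm l with h | ⟨h0, h1, hne⟩
  · rw [h]
    simp
  · rw [Finset.card_erase_of_mem (Finset.mem_erase.mpr ⟨hne.symm, h1⟩), Finset.card_erase_of_mem h0]
    omega

theorem exists_two (B : Type) [CommRing B] [Nontrivial B] [Algebra (MvPolynomial σ R) B]
    [Algebra R B] [IsScalarTower R (MvPolynomial σ R) B]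
    (hB : IsStratum (Ideal.span (Set.range f)) (fns f : Set (MvPolynomial σ R)) B) (l : κ) :
    ∃ m0 m1, supE f B l = ∅ ∨ (m0 ∈ supE f B l ∧ m1 ∈ supE f B l ∧ m0 ≠ m1) := by
  by_cases he : supE f B l = ∅
  · exact ⟨0, 0, Or.inl he⟩
  · have hne := Finset.nonempty_iff_ne_empty.mpr he
    by_cases h1 : (supE f B l).card = 1
    · exfalso
      obtain ⟨m, hm⟩ := Finset.card_eq_one.mp h1
      have hr := rel f B hB l
      rw [hm, Finset.sum_singleton] at hr
      have hmem : m ∈ supE f B l := by
        rw [hm]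
        exact Finset.mem_singleton_self m
      rw [supE, Finset.mem_filter] at hmem
      have hu : IsUnit (algebraMap R B (coeff m (f l)) * mon B (res (uq R B) m)) := by
        rw [alg_eq (σ := σ)]
        exact hmem.2.2.mul (mon_unit (isMon_mon B) _)
      rw [hr] at hu
      exact not_isUnit_zero hu
    · have h2 : 1 < (supE f B l).card := by
        have := hne.card_pos
        omega
      obtain ⟨m0, h0, m1, h1, hne⟩ := Finset.one_lt_card.mp h2
      exact ⟨m0, m1, Or.inr ⟨h0, h1, hne⟩⟩

theorem few {F : ∀ (B : Type) [CommRing B], Prop} {d : ℕ} (hF : Good F d)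
    (hd : ringKrullDim R + ((∑ l, ((f l).support.card - 2) : ℕ) : WithBot ℕ∞) ≤ d) :
    F (MvPolynomial σ R ⧸ Ideal.span (Set.range f)) := by
  have hN : IsNoetherianRing R := Algebra.FiniteType.isNoetherianRing ℤ R
  have hA := ftZ (C := R) (D := MvPolynomial σ R) inferInstance
  refine strat (A := MvPolynomial σ R) (Ideal.span (Set.range f)) (fns f) F hF.glue ?_
  intro B _ _ hB
  have hBft : Algebra.FiniteType ℤ B := Algebra.FiniteType.trans (S := MvPolynomial σ R) hA hB.ft
  rcases subsingleton_or_nontrivial B with hs | hn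
  · refine hF.dim B ?_
    rw [ringKrullDim_eq_bot_of_subsingleton]
    exact bot_le
  · let _ : Algebra R B := ((algebraMap (MvPolynomial σ R) B).comp C).toAlgebra
    have hT : IsScalarTower R (MvPolynomial σ R) B := IsScalarTower.of_algebraMap_eq fun r => rfl
    have hex := exists_two f B hB
    choose m0 m1 hm using hex
    obtain ⟨r, p, s, hs, hp, -⟩ := exists_split (HH R σ B) (Lam f B)
    obtain ⟨e⟩ := cell_iso f B p s hs hB hp
    have h1 := ft_equiv e
    have h2 : Algebra.FiniteType ℤ (Cal f B p) := by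
      let g : AddMonoidAlgebra (Cal f B p) (Fin r → ℤ) →+* Cal f B p :=
        AddMonoidAlgebra.liftNCRingHom (RingHom.id _) 1 (fun _ _ => Commute.all _ _)
      refine Algebra.FiniteType.of_surjective g.toIntAlgHom ?_
      intro c
      refine ⟨AddMonoidAlgebra.single 0 c, ?_⟩
      change g _ = c
      rw [AddMonoidAlgebra.liftNCRingHom_single]
      simp
    have h3 : F (Cal f B p) := by
      refine hF.dim _ ((cell_dim f B p hB hp m0 m1 hm).trans (le_trans ?_ hd))
      rw [MvPolynomial.ringKrullDim_of_isNoetherianRing]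
      exact add_le_add_right (by exact_mod_cast card_idx f B m0 m1 hm) _
    exact hF.iso _ _ e.symm (torus_up hF _ h3 r)

end

end Pool.Agent.E8helper74.BA
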