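import Pool.Agent.E8helper74.BA.K

/-!
# Hypersurfaces `T(x, y, z) = 1` with few terms
-/

set_option autoImplicit false
set_option linter.unusedSectionVars false

open CategoryTheory CategoryTheory.Limits AlgebraicGeometry MvPolynomial
open Pool.Agent.R904.CU Pool.Agent.R904.TR Pool.Agent.Y116.UV Pool.Agent.Z125.UN Pool.Agent.Q282.UZ

namespace Pool.Agent.E8helper74.BA

variable (K : KThy)

/-- the number of nonzero coefficients of a bilinear form -/
noncomputable def nz {R : Type} [Zero R] {b c : ℕ} (t : Fin b → Fin c → R) : ℕ :=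
  Nat.card {p : Fin b × Fin c // t p.1 p.2 ≠ 0}

theorem support_bil {R : Type} [CommRing R] {b c : ℕ} (t : Fin b → Fin c → R) :
    (bil (Fin b) (Fin c) t).support.card ≤ nz t := by
  classical
  let s : Finset (Fin b × Fin c) := Finset.univ.filter fun p => t p.1 p.2 ≠ 0
  have hs : s.card = nz t := by
    unfold nz
    rw [Nat.card_eq_fintype_card, Fintype.card_subtype]
  have h1 : bil (Fin b) (Fin c) t = ∑ p ∈ s, monomial
      (Finsupp.single (Sum.inl p.1) 1 + Finsupp.single (Sum.inr p.2) 1) (t p.1 p.2) := by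
    have h0 : bil (Fin b) (Fin c) t = ∑ p : Fin b × Fin c,
        (C (t p.1 p.2) * X (Sum.inl p.1) * X (Sum.inr p.2) : MvPolynomial (Fin b ⊕ Fin c) R) := by
      rw [bil_apply, ← Finset.univ_product_univ, Finset.sum_product]
    rw [h0, Finset.sum_filter]
    apply Finset.sum_congr rfl
    rintro ⟨j, k⟩ -
    have h2 : (C (t j k) * X (Sum.inl j) * X (Sum.inr k) : MvPolynomial (Fin b ⊕ Fin c) R) =
        monomial (Finsupp.single (Sum.inl j) 1 + Finsupp.single (Sum.inr k) 1) (t j k) := by
      rw [X, X, mul_assoc, monomial_mul, C_mul_monomial, one_mul, mul_one]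
    rw [h2]
    split_ifs with h
    · rfl
    · push Not at h
      rw [h, monomial_zero]
  rw [h1, ← hs]
  refine (Finset.card_le_card (MvPolynomial.support_sum)).trans ?_
  refine Finset.card_biUnion_le.trans ?_
  refine (Finset.sum_le_card_nsmul _ _ 1 ?_).trans (by simp)
  intro p _
  refine (Finset.card_le_card MvPolynomial.support_monomial_subset).trans ?_
  simp

section

variable (d : ℕ) (hd : ∀ (A : Type) [CommRing A] [Algebra.FiniteType ℤ A],
    ringKrullDim A ≤ (d : WithBot ℕ∞) → FA K A) (R : Type) [CommRing R] [Algebra.FiniteType ℤ R]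

include hd

theorem zeros_fin {N c : ℕ} (f : Fin c → MvPolynomial (Fin N) R)
    (h : ringKrullDim R + ((∑ l, ((f l).support.card - 2) : ℕ) : WithBot ℕ∞) ≤ d) :
    K.Fin (Spec (.of (MvPolynomial (Fin N) R ⧸ Ideal.span (Set.range f)))) :=
  few f (good K d hd) h

theorem hyp_fin {a b c : ℕ} (T : Fin a → Fin b → Fin c → R)
    (h : ringKrullDim R + ((∑ i, (nz (T i) - 2) : ℕ) : WithBot ℕ∞) ≤ d) :
    K.Fin (hypS T).left := by
  have hR : FA K R := hd R ((le_add_of_nonneg_right (by exact_mod_cast Nat.zero_le _)).trans h)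
  have hB := bnd K (R := R) False hR
  have h1 : K.Fin (aff R (MvPolynomial (Fin b ⊕ Fin c) R ⧸
      Ideal.span (Set.range fun i => bil (Fin b) (Fin c) (T i)))).left := by
    refine few (fun i => bil (Fin b) (Fin c) (T i)) (good K d hd) (le_trans ?_ h)
    refine add_le_add_right ?_ _
    have : ∑ i, ((bil (Fin b) (Fin c) (T i)).support.card - 2) ≤ ∑ i, (nz (T i) - 2) :=
      Finset.sum_le_sum fun i _ => Nat.sub_le_sub_right (support_bil (T i)) 2
    exact_mod_cast this
  have h2 : K.Fin (aff R (MvPolynomial (Fin b ⊕ Fin c) R)).left :=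
    p_poly hB (A := R) (Fin b ⊕ Fin c) hR
  let f : Fin a → MvPolynomial (Fin b ⊕ Fin c) R := fun i => bil (Fin b) (Fin c) (T i)
  have h3 : K.Fin (opn (aff R (MvPolynomial (Fin b ⊕ Fin c) R)) (neOpen R f)).left := by
    refine hB.opened (affMap (Ideal.Quotient.mkₐ R (Ideal.span (Set.range f))))
      (opnMap (aff R _) (neOpen R f)) (ft_aff False)
      ⟨closed_affMap _ (Ideal.Quotient.mkₐ_surjective R _), inferInstance, ?_⟩ h1 h2
    rw [range_affMap _ (Ideal.Quotient.mkₐ_surjective R _), range_opnMap]
    ext x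
    change (∀ a, Ideal.Quotient.mk (Ideal.span (Set.range f)) a = 0 → a ∈ x.asIdeal) ↔
      ¬ ∃ l, f l ∉ x.asIdeal
    push Not
    constructor
    · intro h l
      exact h (f l) (Ideal.Quotient.eq_zero_iff_mem.mpr (Ideal.subset_span ⟨l, rfl⟩))
    · intro h a ha
      rw [Ideal.Quotient.eq_zero_iff_mem] at ha
      refine (Ideal.span_le.mpr ?_ : Ideal.span (Set.range f) ≤ x.asIdeal) ha
      rintro _ ⟨l, rfl⟩
      exact h l
  have h4 := hB.bundle (MvPolynomial (Fin b ⊕ Fin c) R) a f (opn (aff R _) (neOpen R f))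
    (opnMap (aff R _) (neOpen R f)) inferInstance (range_opnMap _ _) h3
  have h5 : Algebra.FiniteType R (Jou f) :=
    Algebra.FiniteType.trans (S := MvPolynomial (Fin b ⊕ Fin c) R) inferInstance inferInstance
  exact iso_alg hB.toUni (hypEquiv T).symm h4

end

/-- a set of triples in which every first entry occurs at most three times decides Bass's conjecture -/
theorem bass_three : K.Bass ↔ ∀ (a b c : ℕ) (T : Fin a → Fin b → Fin c → ℤ),
    (∀ i j k, T i j k = 0 ∨ T i j k = 1) → (∀ i, nz (T i) ≤ 3) → K.Fin (hypS T).left := by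
  classical
  constructor
  · intro h a b c T _ _
    have hT : FT False (hypS T) := ft_aff False
    exact h _ _ (ft_int hT) (regular_hyp T)
  · intro h Y f hf _
    have hX : FT False (Over.mk f : Sch ℤ) := ⟨hf.1, hf.2, fun h => h.elim⟩
    have hB := (bndZ K).toUni
    have hC : Pool.Agent.Q282.UK.Clo False fun X : Sch ℤ => K.Fin X.left :=
      { iso := hB.iso, total := hB.total, opened := hB.opened, torus := hB.torus }
    refine (three_iff short_int hC).mpr ?_ (Over.mk f) hX
    intro a b c E hE
    let T : Fin c → Fin a → Fin b → ℤ := fun l i j => if (i, j) ∈ E l then 1 else 0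
    have hf : (fun l => Pool.Agent.Q282.UZ.few ℤ (E l)) = fun l => bil (Fin a) (Fin b) (T l) := by
      funext l
      rw [bil_apply]
      have h1 : ∑ i, ∑ j, C (T l i j) * X (Sum.inl i) * X (Sum.inr j) =
          ∑ e : Fin a × Fin b, (C (T l e.1 e.2) * X (Sum.inl e.1) * X (Sum.inr e.2) :
            MvPolynomial (Fin a ⊕ Fin b) ℤ) := by
        rw [← Finset.univ_product_univ, Finset.sum_product]
      rw [h1]
      unfold Pool.Agent.Q282.UZ.few
      rw [← Finset.sum_subset (Finset.subset_univ (E l))]
      · apply Finset.sum_congr rfl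
        intro e he
        have : T l e.1 e.2 = 1 := if_pos he
        rw [this, C_1, one_mul]
      · intro e _ he
        have : T l e.1 e.2 = 0 := if_neg he
        rw [this, C_0, zero_mul, zero_mul]
    have h1 : K.Fin (hypS T).left := by
      refine h _ _ _ T ?_ ?_
      · intro i j k
        by_cases hE : (j, k) ∈ E i
        · exact Or.inr (if_pos hE)
        · exact Or.inl (if_neg hE)
      · intro i
        refine le_trans ?_ (hE i)
        unfold nz
        rw [Nat.card_eq_fintype_card, Fintype.card_subtype]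
        apply Finset.card_le_card
        intro p hp
        by_contra hn
        exact (Finset.mem_filter.mp hp).2 (if_neg hn)
    have h2 : K.Fin (aff ℤ (MvPolynomial (Fin a ⊕ Fin b) ℤ)).left :=
      p_poly (bndZ K) (A := ℤ) (Fin a ⊕ Fin b) (fin_dim_one K ℤ dim_int)
    have h3 : K.Fin (aff ℤ (Jou fun l => Pool.Agent.Q282.UZ.few ℤ (E l))).left := by
      rw [hf]
      exact iso_alg hB (hypEquiv T) h1
    exact of_jou hB (fun l => Pool.Agent.Q282.UZ.few ℤ (E l)) h2 h3

end Pool.Agent.E8helper74.BA
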