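import Pool.Agent.E8helper74.BA.Newt2

/-!
# Systems of equations with Newton polytopes of small dimension
-/

set_option autoImplicit false
set_option linter.unusedSectionVars false

open MvPolynomial

namespace Pool.Agent.E8helper74.BA

theorem newtonDim_le {R : Type} [CommRing R] {σ : Type} (g : MvPolynomial σ R) :
    newtonDim g ≤ g.support.card - 1 := by
  classical
  unfold newtonDim
  rcases g.support.eq_empty_or_nonempty with h | ⟨m0, h0⟩
  · have h1 : {d : σ → ℤ | ∃ m ∈ g.support, ∃ m' ∈ g.support,
        d = fun i => (m i : ℤ) - (m' i : ℤ)} = ∅ := by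
      rw [Set.eq_empty_iff_forall_notMem]
      rintro d ⟨m, hm, -⟩
      rw [h] at hm
      exact absurd hm (Finset.notMem_empty _)
    rw [h1, Submodule.span_empty, finrank_bot]
    exact Nat.zero_le _
  · let s : Finset (σ → ℤ) := (g.support.erase m0).image fun m => fun i => (m i : ℤ) - (m0 i : ℤ)
    have h1 : Submodule.span ℤ {d : σ → ℤ | ∃ m ∈ g.support, ∃ m' ∈ g.support,
        d = fun i => (m i : ℤ) - (m' i : ℤ)} ≤ Submodule.span ℤ (s : Set (σ → ℤ)) := by
      have h2 : ∀ m ∈ g.support, (fun i => (m i : ℤ) - (m0 i : ℤ)) ∈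
          Submodule.span ℤ (s : Set (σ → ℤ)) := by
        intro m hm
        by_cases hmm : m = m0
        · subst hmm
          have : (fun i => (m i : ℤ) - (m i : ℤ)) = 0 := by
            funext i
            exact sub_self _
          rw [this]
          exact zero_mem _
        · exact Submodule.subset_span (Finset.mem_coe.mpr
            (Finset.mem_image_of_mem _ (Finset.mem_erase.mpr ⟨hmm, hm⟩)))
      rw [Submodule.span_le]
      rintro _ ⟨m, hm, m', hm', rfl⟩
      have h3 := sub_mem (h2 m hm) (h2 m' hm')
      have h4 : (fun i => (m i : ℤ) - (m0 i : ℤ)) - (fun i => (m' i : ℤ) - (m0 i : ℤ)) =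
          fun i => (m i : ℤ) - (m' i : ℤ) := by
        funext i
        simp
      rwa [h4] at h3
    have hfin : Module.Finite ℤ (Submodule.span ℤ (s : Set (σ → ℤ))) :=
      Module.Finite.span_finset ℤ s
    refine (Submodule.finrank_mono h1).trans ((finrank_span_finset_le_card s).trans ?_)
    refine Finset.card_image_le.trans ?_
    rw [Finset.card_erase_of_mem h0]

section

variable {R : Type} [CommRing R] [Algebra.FiniteType ℤ R] {σ κ : Type} [Fintype σ] [Fintype κ]
  (f : κ → MvPolynomial σ R)

theorem newton {F : ∀ (B : Type) [CommRing B], Prop} {d : ℕ} (hF : Good F d)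
    (hd : ringKrullDim R + ((∑ l, (newtonDim (f l) - 1) : ℕ) : WithBot ℕ∞) ≤ d) :
    F (MvPolynomial σ R ⧸ Ideal.span (Set.range f)) := by
  have hN : IsNoetherianRing R := Algebra.FiniteType.isNoetherianRing ℤ R
  have hA := ftZ (C := R) (D := MvPolynomial σ R) inferInstance
  refine strat (A := MvPolynomial σ R) (Ideal.span (Set.range f)) (fns f) F hF.glue ?_
  intro B _ _ hB
  have hBft : Algebra.FiniteType ℤ B := Algebra.FiniteType.trans (S := MvPolynomial σ R) hA hB.ft
  rcases subsingleton_or_nontrivial B with hs | hn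
  · refine hF.dim B ?_
    rw [ringKrullDim_eq_bot_of_subsingleton]
    exact bot_le
  · let _ : Algebra R B := ((algebraMap (MvPolynomial σ R) B).comp C).toAlgebra
    have hT : IsScalarTower R (MvPolynomial σ R) B := IsScalarTower.of_algebraMap_eq fun r => rfl
    have hex := exists_two f B hB
    have hsep := exists_sep f B
    choose g hg using hsep
    obtain ⟨r, p, s, hs, hp, -⟩ := exists_split (HH R σ B) (Lam f B)
    obtain ⟨e⟩ := cell_iso f B p s hs hB hp
    have h1 := ft_equiv e
    have h2 : Algebra.FiniteType ℤ (Cal f B p) := by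
      let g : AddMonoidAlgebra (Cal f B p) (Fin r → ℤ) →+* Cal f B p :=
        AddMonoidAlgebra.liftNCRingHom (RingHom.id _) 1 (fun _ _ => Commute.all _ _)
      refine Algebra.FiniteType.of_surjective g.toIntAlgHom ?_
      intro c
      refine ⟨AddMonoidAlgebra.single 0 c, ?_⟩
      change g _ = c
      rw [AddMonoidAlgebra.liftNCRingHom_single]
      simp
    have h3 : F (Cal f B p) := by
      refine hF.dim _ ((cell_dim2 f B g hg hex p hB hp).trans (le_trans ?_ hd))
      rw [MvPolynomial.ringKrullDim_of_isNoetherianRing]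
      refine add_le_add_right ?_ _
      have h4 : Nat.card (Jdx f B g) ≤ ∑ l, (newtonDim (f l) - 1) := by
        rw [Nat.card_eq_fintype_card, Fintype.card_sigma]
        apply Finset.sum_le_sum
        intro l _
        rw [Fintype.card_fin]
        exact rank_NN f B g hg hex l
      exact_mod_cast h4
    exact hF.iso _ _ e.symm (torus_up hF _ h3 r)

end

end Pool.Agent.E8helper74.BA
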