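import Pool.Agent.E8helper74.BA.Fin
import Pool.Agent.E8helper74.BA.NewtMain

/-!
# K'-groups: the two criteria, the hypersurfaces `T(x, y, z) = 1`, and `K'_0`, `K'_1`
-/

set_option autoImplicit false
set_option linter.unusedSectionVars false

open CategoryTheory CategoryTheory.Limits AlgebraicGeometry MvPolynomial
open Pool.Agent.R904.CU Pool.Agent.R904.TR Pool.Agent.Y116.UV Pool.Agent.Z125.UN Pool.Agent.Q282.UZ

namespace Pool.Agent.E8helper74.BA

variable (K : KThy)

theorem dim_hyp (d : ℕ) (h : ∀ (X : Scheme.{0}) (f : X ⟶ Spec (.of ℤ)), FinType ℤ X f →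
    topologicalKrullDim X ≤ d → K.Fin X) (A : Type) [CommRing A] [Algebra.FiniteType ℤ A]
    (hA : ringKrullDim A ≤ (d : WithBot ℕ∞)) : FA K A := by
  refine h _ (toInt A) ⟨ft_toInt, ?_⟩ ?_
  · unfold toInt
    infer_instance
  · rw [dim_spec]
    exact hA

theorem good_dim (d : ℕ) (h : ∀ (X : Scheme.{0}) (f : X ⟶ Spec (.of ℤ)), FinType ℤ X f →
    topologicalKrullDim X ≤ d → K.Fin X) : Good (fun A _ => FA K A) d :=
  good K d fun A _ _ hA => dim_hyp K d h A hA

/-- the complement of `f = 0` -/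
theorem triple_ne {R A : Type} [CommRing R] [CommRing A] [Algebra R A] {m : ℕ} (f : Fin m → A) :
    IsTriple (affMap (Ideal.Quotient.mkₐ R (Ideal.span (Set.range f))))
      (opnMap (aff R A) (neOpen R f)) := by
  refine ⟨closed_affMap _ (Ideal.Quotient.mkₐ_surjective R _), inferInstance, ?_⟩
  rw [range_affMap _ (Ideal.Quotient.mkₐ_surjective R _), range_opnMap]
  ext x
  change (∀ a, Ideal.Quotient.mk (Ideal.span (Set.range f)) a = 0 → a ∈ x.asIdeal) ↔
    ¬ ∃ l, f l ∉ x.asIdeal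
  push Not
  constructor
  · intro h l
    exact h (f l) (Ideal.Quotient.eq_zero_iff_mem.mpr (Ideal.subset_span ⟨l, rfl⟩))
  · intro h a ha
    rw [Ideal.Quotient.eq_zero_iff_mem] at ha
    refine (Ideal.span_le.mpr ?_ : Ideal.span (Set.range f) ≤ x.asIdeal) ha
    rintro _ ⟨l, rfl⟩
    exact h l

theorem hyp_fin2 {d : ℕ} (hG : Good (fun A _ => FA K A) d) (R : Type) [CommRing R]
    [Algebra.FiniteType ℤ R] {a b c : ℕ} (T : Fin a → Fin b → Fin c → R)
    (h : ringKrullDim R + ((∑ i, (newtonDim (bil (Fin b) (Fin c) (T i)) - 1) : ℕ) : WithBot ℕ∞) ≤ d) :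
    K.Fin (hypS T).left := by
  have hR : FA K R := hG.dim R ((le_add_of_nonneg_right (by exact_mod_cast Nat.zero_le _)).trans h)
  have hB := bnd K (R := R) False hR
  let f : Fin a → MvPolynomial (Fin b ⊕ Fin c) R := fun i => bil (Fin b) (Fin c) (T i)
  have h1 : K.Fin (aff R (MvPolynomial (Fin b ⊕ Fin c) R ⧸ Ideal.span (Set.range f))).left :=
    newton f hG h
  have h2 : K.Fin (aff R (MvPolynomial (Fin b ⊕ Fin c) R)).left :=
    p_poly hB (A := R) (Fin b ⊕ Fin c) hR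
  have h3 : K.Fin (opn (aff R (MvPolynomial (Fin b ⊕ Fin c) R)) (neOpen R f)).left :=
    hB.opened _ _ (ft_aff False) (triple_ne f) h1 h2
  have h4 := hB.bundle (MvPolynomial (Fin b ⊕ Fin c) R) a f (opn (aff R _) (neOpen R f))
    (opnMap (aff R _) (neOpen R f)) inferInstance (range_opnMap _ _) h3
  have h5 : Algebra.FiniteType R (Jou f) :=
    Algebra.FiniteType.trans (S := MvPolynomial (Fin b ⊕ Fin c) R) inferInstance inferInstance
  exact iso_alg hB.toUni (hypEquiv T).symm h4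

/-- `K'_0` -/
def F0 (A : Type) [CommRing A] : Prop := AddGroup.FG (K.G 0 (Spec (.of A)))

theorem f0_poly (A : Type) [CommRing A] [Algebra.FiniteType ℤ A] (n : ℕ)
    (τ : Type) [Fintype τ] (h : AddGroup.FG (K.G n (Spec (.of A)))) :
    AddGroup.FG (K.G n (Spec (.of (MvPolynomial τ A)))) := by
  have e1 : Set.range (𝟙 (sp A) : sp A ⟶ sp A) =
      {x : PrimeSpectrum A | ∃ l, f1 A (Fintype.card τ) l ∉ x.asIdeal} := by
    have h1 : Set.range (𝟙 (sp A) : sp A ⟶ sp A) = Set.univ := Set.range_id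
    have h2 : {x : PrimeSpectrum A | ∃ l, f1 A (Fintype.card τ) l ∉ x.asIdeal} = Set.univ := by
      rw [Set.eq_univ_iff_forall]
      intro x
      exact ⟨0, fun h => x.isPrime.ne_top ((Ideal.eq_top_iff_one _).mpr h)⟩
    exact h1.trans h2.symm
  obtain ⟨e⟩ := K.bundle n A (Fintype.card τ + 1) (f1 A (Fintype.card τ)) (sp A) (𝟙 _)
    ⟨inferInstance, e1⟩
  have h2 : AddGroup.FG (K.G n (jouS (f1 A (Fintype.card τ)))) := fg_equiv ⟨e⟩ h
  have e3 : Jou (f1 A (Fintype.card τ)) ≃ₐ[A] MvPolynomial τ A :=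
    (jouOne A (Fintype.card τ)).trans (renameEquiv A (Fintype.equivFin τ).symm)
  exact fg_equiv (K.iso n _ _ ((Over.forget _).mapIso (affIso e3).symm)) h2

theorem f0_iso (n : ℕ) (A B : Type) [CommRing A] [CommRing B] (e : A ≃+* B)
    (h : AddGroup.FG (K.G n (Spec (.of A)))) : AddGroup.FG (K.G n (Spec (.of B))) := by
  have e' : A ≃ₐ[ℤ] B := AlgEquiv.ofRingEquiv (f := e) (fun r => by simp)
  exact fg_equiv (K.iso n _ _ ((Over.forget _).mapIso (affIso e').symm)) h

theorem loc_seq (B : Type) [CommRing B] [Algebra.FiniteType ℤ B] (c : B) :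
    LocSeq K.G K.grp (sp B) (sp (B ⧸ Ideal.span {c})) (sp (Localization.Away c)) := by
  have ht := triple_away (R := ℤ) c
  exact K.localization _ _ _ _ _ _ (ft_int (ft_aff (R := ℤ) (A := B) False)) ht.closed ht.opened
    ht.compl

theorem good_zero (h : ∀ (X : Scheme.{0}) (f : X ⟶ Spec (.of ℤ)), FinType ℤ X f →
    topologicalKrullDim X ≤ 2 → AddGroup.FG (K.G 0 X)) : Good (fun A _ => F0 K A) 2 where
  iso A B _ _ _ e h := f0_iso K 0 A B e h
  glue B _ _ c h1 h2 := by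
    obtain ⟨a, b, d, e1, e2, e3, -⟩ := loc_seq K B c
    exact fg_exact (a 0) (b 0) (e1 0) h1 h2
  laurent A _ _ h := by
    have h1 : F0 K (MvPolynomial PUnit A) := f0_poly K A 0 PUnit h
    have h3 : F0 K (Polynomial A) := f0_iso K 0 _ _ (uniqueAlgEquiv A PUnit).toRingEquiv h1
    have h4 := ftZ (C := A) (D := Polynomial A) inferInstance
    obtain ⟨a, b, d, e1, e2, e3, e4⟩ := loc_seq K (Polynomial A) (Polynomial.X : Polynomial A)
    have h3' : AddGroup.FG (K.G 0 (sp (Polynomial A))) := h3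
    have h6 : F0 K (Localization.Away (Polynomial.X : Polynomial A)) :=
      AddGroup.fg_of_surjective e4
    have e2 : Localization.Away (Polynomial.X : Polynomial A) ≃ₐ[Polynomial A]
        LaurentPolynomial A :=
      IsLocalization.algEquiv (Submonoid.powers (Polynomial.X : Polynomial A)) _ _
    exact f0_iso K 0 _ _ e2.toRingEquiv h6
  dim A _ _ hA := by
    refine h _ (toInt A) ⟨ft_toInt, ?_⟩ ?_
    · unfold toInt
      infer_instance
    · rw [dim_spec]
      exact_mod_cast hA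

theorem hyp_k1 (h : ∀ (X : Scheme.{0}) (f : X ⟶ Spec (.of ℤ)), FinType ℤ X f →
    topologicalKrullDim X ≤ 2 → AddGroup.FG (K.G 0 X)) (R : Type) [CommRing R]
    [Algebra.FiniteType ℤ R] (hR1 : ringKrullDim R ≤ 1) {a b c : ℕ}
    (T : Fin a → Fin b → Fin c → R)
    (hT : ringKrullDim R + ((∑ i, (newtonDim (bil (Fin b) (Fin c) (T i)) - 1) : ℕ) : WithBot ℕ∞) ≤
      ((2 : ℕ) : WithBot ℕ∞)) : AddGroup.FG (K.G 1 (hypS T).left) := by
  have hR : FA K R := fin_dim_one K R hR1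
  let f : Fin a → MvPolynomial (Fin b ⊕ Fin c) R := fun i => bil (Fin b) (Fin c) (T i)
  have hA := ftZ (C := R) (D := MvPolynomial (Fin b ⊕ Fin c) R) inferInstance
  have h1 : AddGroup.FG (K.G 0 (aff R (MvPolynomial (Fin b ⊕ Fin c) R ⧸
      Ideal.span (Set.range f))).left) := newton f (good_zero K h) hT
  have h2 : AddGroup.FG (K.G 1 (aff R (MvPolynomial (Fin b ⊕ Fin c) R)).left) :=
    f0_poly K R 1 (Fin b ⊕ Fin c) (hR 1)
  have ht := triple_ne (R := R) f
  obtain ⟨u, v, w, e1, e2, e3, e4⟩ := K.localization _ _ _ _ _ _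
    (ft_int (ft_aff (R := R) (A := MvPolynomial (Fin b ⊕ Fin c) R) False)) ht.closed ht.opened
    ht.compl
  have h3 : AddGroup.FG (K.G 1 (opn (aff R (MvPolynomial (Fin b ⊕ Fin c) R)) (neOpen R f)).left) :=
    fg_exact (v 1) (w 0) (e2 0) h2 h1
  obtain ⟨e5⟩ := K.bundle 1 (MvPolynomial (Fin b ⊕ Fin c) R) a f
    (opn (aff R (MvPolynomial (Fin b ⊕ Fin c) R)) (neOpen R f)).left
    (opnMap (aff R _) (neOpen R f)).left ⟨ht.opened, range_opnMap _ _⟩
  have h4 : AddGroup.FG (K.G 1 (jouS f)) := fg_equiv ⟨e5⟩ h3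
  exact fg_equiv (K.iso 1 _ _ ((Over.forget _).mapIso (affIso (hypEquiv T)))) h4

end Pool.Agent.E8helper74.BA
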