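import Pool.Agent.E8helper74.BA.Compl

/-!
# Integral elements, and functionals which separate finitely many vectors
-/

set_option autoImplicit false

namespace Pool.Agent.E8helper74.BA

/-- The elements which are integral over the localization of `P` at the elements which become units. -/
theorem exists_integral {P C : Type*} [CommRing P] [CommRing C] (ψ : P →+* C) :
    ∃ S : Subring C, (∀ p, ψ p ∈ S) ∧ (∀ q b, ψ q * b = 1 → b ∈ S) ∧
      (∀ (c : C) (n : ℕ) (a : ℕ → C), 0 < n → (∀ j, a j ∈ S) →
        c ^ n + ∑ j ∈ Finset.range n, a j * c ^ j = 0 → c ∈ S) ∧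
      (S = ⊤ → ringKrullDim C ≤ ringKrullDim P) := by
  let M : Submonoid P := (IsUnit.submonoid C).comap ψ
  have hM : ∀ y : M, IsUnit (ψ y) := fun y => y.2
  let χ : Localization M →+* C := IsLocalization.lift hM
  have hχ : ∀ p : P, χ (algebraMap P (Localization M) p) = ψ p := fun p =>
    IsLocalization.lift_eq hM p
  let _ : Algebra (Localization M) C := χ.toAlgebra
  have hint : ∀ x : Localization M, χ x ∈ integralClosure (Localization M) C := fun x =>
    (isIntegral_algebraMap : IsIntegral (Localization M) (algebraMap (Localization M) C x))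
  refine ⟨(integralClosure (Localization M) C).toSubring, ?_, ?_, ?_, ?_⟩
  · intro p
    rw [← hχ]
    exact hint _
  · intro q b hb
    have hq : IsUnit (ψ q) := IsUnit.of_mul_eq_one b hb
    have h1 : χ (IsLocalization.mk' (Localization M) 1 (⟨q, hq⟩ : M)) = b := by
      rw [IsLocalization.lift_mk'_spec, map_one]
      exact hb.symm
    rw [← h1]
    exact hint _
  · intro c n a hn ha h
    have h1 : IsIntegral (integralClosure (Localization M) C) c := by
      let P' : Polynomial (integralClosure (Localization M) C) := Polynomial.X ^ n +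
        ∑ j ∈ Finset.range n, Polynomial.C (⟨a j, ha j⟩ : integralClosure (Localization M) C) *
          Polynomial.X ^ j
      refine ⟨P', ?_, ?_⟩
      · refine Polynomial.monic_X_pow_add ?_
        refine lt_of_le_of_lt (Polynomial.degree_sum_le _ _) ?_
        rw [Finset.sup_lt_iff (by exact_mod_cast WithBot.bot_lt_coe n)]
        intro j hj
        exact lt_of_le_of_lt (Polynomial.degree_C_mul_X_pow_le _ _)
          (by exact_mod_cast Finset.mem_range.mp hj)
      · simp only [P', Polynomial.eval₂_add, Polynomial.eval₂_pow, Polynomial.eval₂_X,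
          Polynomial.eval₂_finsetSum, Polynomial.eval₂_mul, Polynomial.eval₂_C]
        exact h
    exact isIntegral_trans (R := Localization M) (A := integralClosure (Localization M) C) c h1
  · intro h
    have h1 : χ.IsIntegral := by
      intro c
      have : c ∈ (integralClosure (Localization M) C).toSubring := by
        rw [h]
        trivial
      exact this
    exact (dim_integral χ h1).trans (dim_local P M (Localization M))

/-- A functional with integral values which does not vanish at finitely many given vectors. -/
theorem exists_functional {ι : Type} [Fintype ι] (s : Finset (ι → ℤ)) (hs : ∀ v ∈ s, v ≠ 0) :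
    ∃ g : (ι → ℤ) →ₗ[ℤ] ℤ, ∀ v ∈ s, g v ≠ 0 := by
  classical
  let e := Fintype.equivFin ι
  let Q : (ι → ℤ) → Polynomial ℤ := fun v => ∑ i, Polynomial.monomial (e i : ℕ) (v i)
  have hQ : ∀ v, v ≠ 0 → Q v ≠ 0 := by
    intro v hv h0
    apply hv
    funext i
    have h1 := congrArg (fun q => Polynomial.coeff q (e i : ℕ)) h0
    simp only [Q, Polynomial.finsetSum_coeff, Polynomial.coeff_monomial,
      Polynomial.coeff_zero] at h1
    rw [Finset.sum_eq_single i] at h1
    · simpa using h1
    · intro j _ hj
      rw [if_neg]
      intro h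
      exact hj (e.injective (Fin.ext h))
    · intro h
      exact absurd (Finset.mem_univ i) h
  have hP : (∏ v ∈ s, Q v) ≠ 0 := Finset.prod_ne_zero_iff.mpr fun v hv => hQ v (hs v hv)
  obtain ⟨x, hx⟩ : ∃ x : ℤ, (∏ v ∈ s, Q v).eval x ≠ 0 := by
    by_contra hcon
    push Not at hcon
    exact hP (Polynomial.funext fun x => by rw [hcon x, Polynomial.eval_zero])
  refine ⟨∑ i, x ^ (e i : ℕ) • LinearMap.proj i, ?_⟩
  intro v hv h0
  rw [Polynomial.eval_prod, Finset.prod_ne_zero_iff] at hx
  apply hx v hv
  rw [LinearMap.sum_apply] at h0
  simp only [Q, Polynomial.eval_finsetSum, Polynomial.eval_monomial]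
  rw [← h0]
  apply Finset.sum_congr rfl
  intro i _
  rw [LinearMap.smul_apply, LinearMap.proj_apply, smul_eq_mul, mul_comm]

end Pool.Agent.E8helper74.BA
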