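import Pool.Agent.E8helper74.BA.Few
import Pool.Agent.R904.TR.Res
import Pool.Agent.Q282.UZ.Sys

/-!
# Finite generation of K'-groups and systems of equations with few terms
-/

set_option autoImplicit false
set_option linter.unusedSectionVars false

open CategoryTheory CategoryTheory.Limits AlgebraicGeometry MvPolynomial
open Pool.Agent.R904.CU Pool.Agent.R904.TR Pool.Agent.Y116.UV Pool.Agent.Z125.UN Pool.Agent.Q282.UZ

namespace Pool.Agent.E8helper74.BA

variable (K : KThy)

/-- all groups `K'_n(Spec A)` are finitely generated -/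
def FA (A : Type) [CommRing A] : Prop := K.Fin (Spec (.of A))

/-- the closure properties over `ℤ` -/
theorem bndZ : Bnd False fun X : Sch ℤ => K.Fin X.left := bnd K False (fin_dim_one K ℤ dim_int)

theorem fa_iso (A B : Type) [CommRing A] [CommRing B] [Algebra.FiniteType ℤ A] (e : A ≃+* B)
    (h : FA K A) : FA K B := by
  have e' : A ≃ₐ[ℤ] B := AlgEquiv.ofRingEquiv (f := e) (fun r => by simp)
  exact iso_alg (bndZ K).toUni e' h

theorem fa_glue (B : Type) [CommRing B] [Algebra.FiniteType ℤ B] (c : B)
    (h1 : FA K (B ⧸ Ideal.span {c})) (h2 : FA K (Localization.Away c)) : FA K B := by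
  refine (bndZ K).total _ _ (ft_aff (R := ℤ) (A := B) False) (triple_away (R := ℤ) c) ?_ ?_
  · exact h1
  · exact h2

theorem fa_laurent (A : Type) [CommRing A] [Algebra.FiniteType ℤ A] (h : FA K A) :
    FA K (LaurentPolynomial A) := by
  have h1 : K.Fin (aff ℤ (MvPolynomial PUnit A)).left := p_poly (bndZ K) (A := A) PUnit h
  have h2 := ftZ (C := A) (D := MvPolynomial PUnit A) inferInstance
  have h3 : FA K (Polynomial A) := fa_iso K (MvPolynomial PUnit A) (Polynomial A)
    (uniqueAlgEquiv A PUnit).toRingEquiv h1
  have h4 := ftZ (C := A) (D := Polynomial A) inferInstance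
  have h5 : FA K (Polynomial A ⧸ Ideal.span {(Polynomial.X : Polynomial A)}) := by
    have e := (Polynomial.quotientSpanXSubCAlgEquiv (0 : A)).symm.toRingEquiv
    rw [map_zero, sub_zero] at e
    exact fa_iso K _ _ e h
  have h6 : FA K (Localization.Away (Polynomial.X : Polynomial A)) :=
    (bndZ K).opened _ _ (ft_aff (R := ℤ) (A := Polynomial A) False)
      (triple_away (R := ℤ) (Polynomial.X : Polynomial A)) h5 h3
  have h7 := ftZ (C := Polynomial A) (D := Localization.Away (Polynomial.X : Polynomial A))
    inferInstance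
  have e2 : Localization.Away (Polynomial.X : Polynomial A) ≃ₐ[Polynomial A]
      LaurentPolynomial A := IsLocalization.algEquiv (Submonoid.powers (Polynomial.X : Polynomial A)) _ _
  exact fa_iso K _ _ e2.toRingEquiv h6

theorem good (d : ℕ) (h : ∀ (A : Type) [CommRing A] [Algebra.FiniteType ℤ A],
    ringKrullDim A ≤ (d : WithBot ℕ∞) → FA K A) : Good (fun A _ => FA K A) d where
  iso A B _ _ _ e h := fa_iso K A B e h
  glue B _ _ c h1 h2 := fa_glue K B c h1 h2
  laurent A _ _ h := fa_laurent K A h
  dim := h

theorem good_one : Good (fun A _ => FA K A) 1 :=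
  good K 1 fun A _ _ h => fin_dim_one K A (by exact_mod_cast h)

end Pool.Agent.E8helper74.BA
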