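import Pool.Agent.E8helper74.BA.Int

/-!
# Integrality of monomials from one relation with different weights
-/

set_option autoImplicit false

namespace Pool.Agent.E8helper74.BA

section

variable {C : Type} [CommRing C] {S : Subring C}
  (hS : ∀ (c : C) (n : ℕ) (a : ℕ → C), 0 < n → (∀ j, a j ∈ S) →
    c ^ n + ∑ j ∈ Finset.range n, a j * c ^ j = 0 → c ∈ S)
  {W : Type} [AddCommGroup W] {h : W → C} (hh : IsMon h)
  {α : Type} (E : Finset α) (w : α → W) (c : α → C) (hc : ∀ m ∈ E, c m ∈ S)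
  (hc' : ∀ m ∈ E, ∃ b ∈ S, c m * b = 1) (hrel : ∑ m ∈ E, c m * h (w m) = 0)

include hS hh hc hc' hrel

theorem tau_mem (g : W →+ ℤ) (hg : ∀ m ∈ E, ∀ m' ∈ E, g (w m) = g (w m') → m = m')
    (hE : 1 < E.card) (τ : W) (hτ : 0 < g τ) (hdiv : ∀ v, g τ ∣ g v)
    (hN : ∀ v, g v = 0 → h v ∈ S) : h τ ∈ S := by
  classical
  have hne : E.Nonempty := Finset.card_pos.mp (by omega)
  obtain ⟨m0, hm0, hmin⟩ := Finset.exists_min_image E (fun m => g (w m)) hne
  obtain ⟨m1, hm1, hmax⟩ := Finset.exists_max_image E (fun m => g (w m)) hne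
  have h01 : m0 ≠ m1 := by
    rintro rfl
    obtain ⟨a, ha, b, hb, hab⟩ := Finset.one_lt_card.mp hE
    apply hab
    apply hg a ha b hb
    have := hmin a ha
    have := hmin b hb
    have := hmax a ha
    have := hmax b hb
    omega
  let k : α → ℤ := fun m => g (w m - w m0) / g τ
  have hk : ∀ m, g (w m - w m0) = k m * g τ := fun m => (Int.ediv_mul_cancel (hdiv _)).symm
  have hk0 : ∀ m ∈ E, 0 ≤ k m := by
    intro m hm
    apply Int.ediv_nonneg
    · rw [map_sub]
      have := hmin m hm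
      omega
    · exact hτ.le
  have hk1 : ∀ m ∈ E, m ≠ m1 → k m < k m1 := by
    intro m hm hne
    have h1 := hmax m hm
    have h2 : g (w m) ≠ g (w m1) := fun h3 => hne (hg m hm m1 hm1 h3)
    have h3 : g (w m) < g (w m1) := lt_of_le_of_ne h1 h2
    have h4 : k m * g τ < k m1 * g τ := by
      rw [← hk, ← hk, map_sub, map_sub]
      omega
    exact lt_of_mul_lt_mul_right h4 hτ.le
  let κ : α → ℕ := fun m => (k m).toNat
  have hκ : ∀ m ∈ E, ((κ m : ℕ) : ℤ) = k m := fun m hm => Int.toNat_of_nonneg (hk0 m hm)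
  let ν : α → W := fun m => w m - w m0 - κ m • τ
  have hν : ∀ m ∈ E, g (ν m) = 0 := by
    intro m hm
    change g (w m - w m0 - κ m • τ) = 0
    rw [map_sub, hk, map_nsmul, nsmul_eq_mul, hκ m hm, sub_self]
  have hhν : ∀ m ∈ E, h (ν m) ∈ S := fun m hm => hN _ (hν m hm)
  have hrel2 : ∑ m ∈ E, c m * h (ν m) * h τ ^ κ m = 0 := by
    have h1 := congrArg (fun x => x * h (-(w m0))) hrel
    simp only [zero_mul, Finset.sum_mul] at h1
    rw [← h1]
    apply Finset.sum_congr rfl
    intro m _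
    rw [← hh.nsmul, mul_assoc, ← hh.add, mul_assoc, ← hh.add]
    congr 2
    change w m - w m0 - κ m • τ + κ m • τ = w m + -w m0
    abel
  obtain ⟨b, hbS, hb⟩ := hc' m1 hm1
  let u : C := b * h (-(ν m1))
  have huS : u ∈ S := S.mul_mem hbS (hN _ (by rw [map_neg, hν m1 hm1, neg_zero]))
  have hu : u * (c m1 * h (ν m1)) = 1 := by
    have h1 := hh.neg_mul (ν m1)
    change b * h (-(ν m1)) * (c m1 * h (ν m1)) = 1
    linear_combination (h (-(ν m1)) * h (ν m1)) * hb + h1
  have hrel3 : h τ ^ κ m1 + ∑ m ∈ E.erase m1, u * (c m * h (ν m)) * h τ ^ κ m = 0 := by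
    have h1 := congrArg (fun x => u * x) hrel2
    simp only [mul_zero, Finset.mul_sum] at h1
    rw [← Finset.add_sum_erase _ _ hm1, ← mul_assoc, hu, one_mul] at h1
    rw [← h1]
    congr 1
    apply Finset.sum_congr rfl
    intro m _
    rw [mul_assoc]
  have hn : 0 < κ m1 := by
    have h1 := hk1 m0 hm0 h01
    have h2 := hk0 m0 hm0
    have h3 := hκ m1 hm1
    omega
  refine hS (h τ) (κ m1) (fun j => ∑ m ∈ (E.erase m1).filter (fun m => κ m = j),
    u * (c m * h (ν m))) hn ?_ ?_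
  · intro j
    refine S.sum_mem fun m hm => ?_
    have hmE : m ∈ E := Finset.mem_of_mem_erase (Finset.mem_filter.mp hm).1
    exact S.mul_mem huS (S.mul_mem (hc m hmE) (hhν m hmE))
  · rw [← hrel3]
    congr 1
    rw [← Finset.sum_fiberwise_of_maps_to (s := E.erase m1) (t := Finset.range (κ m1)) (g := κ)
      (fun m hm => by
        rw [Finset.mem_range]
        have hmE := Finset.mem_of_mem_erase hm
        have h1 := hk1 m hmE (Finset.ne_of_mem_erase hm)
        have h2 := hκ m hmE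
        have h3 := hκ m1 hm1
        omega)]
    apply Finset.sum_congr rfl
    intro j _
    rw [Finset.sum_mul]
    apply Finset.sum_congr rfl
    intro m hm
    rw [(Finset.mem_filter.mp hm).2]

theorem all_mem (g : W →+ ℤ) (hg : ∀ m ∈ E, ∀ m' ∈ E, g (w m) = g (w m') → m = m')
    (hE : 1 < E.card) (hN : ∀ v, g v = 0 → h v ∈ S) (v : W) : h v ∈ S := by
  obtain ⟨a, ha⟩ := Int.subgroup_cyclic g.range
  obtain ⟨τ0, hτ0⟩ : a ∈ g.range := by
    rw [ha]
    exact AddSubgroup.subset_closure rfl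
  have hdiv0 : ∀ v, a ∣ g v := by
    intro v
    have h1 : g v ∈ g.range := ⟨v, rfl⟩
    rw [ha, AddSubgroup.mem_closure_singleton] at h1
    obtain ⟨n, hn⟩ := h1
    exact ⟨n, by rw [← hn, smul_eq_mul, mul_comm]⟩
  have ha0 : a ≠ 0 := by
    rintro rfl
    obtain ⟨m, hm, m', hm', hne⟩ := Finset.one_lt_card.mp hE
    apply hne
    apply hg m hm m' hm'
    rw [zero_dvd_iff.mp (hdiv0 _), zero_dvd_iff.mp (hdiv0 _)]
  obtain ⟨τ, hτ, hdiv⟩ : ∃ τ, 0 < g τ ∧ ∀ v, g τ ∣ g v := by
    rcases lt_or_gt_of_ne ha0 with h1 | h1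
    · refine ⟨-τ0, ?_, fun v => ?_⟩
      · rw [map_neg, hτ0]
        omega
      · rw [map_neg, hτ0, neg_dvd]
        exact hdiv0 v
    · exact ⟨τ0, by rw [hτ0]; exact h1, fun v => by rw [hτ0]; exact hdiv0 v⟩
  have h1 : h τ ∈ S := tau_mem hS hh E w c hc hc' hrel g hg hE τ hτ hdiv hN
  have h2 : h (-τ) ∈ S := by
    refine tau_mem hS hh E w c hc hc' hrel (-g) ?_ hE (-τ) ?_ ?_ ?_
    · intro m hm m' hm' he
      apply hg m hm m' hm'
      simpa using he
    · simpa using hτ
    · intro v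
      have := hdiv v
      simpa using this
    · intro v hv
      apply hN
      simpa using hv
  obtain ⟨e, he⟩ := hdiv v
  have h3 : h (e • τ) ∈ S := by
    obtain ⟨n, rfl | rfl⟩ := e.eq_nat_or_neg
    · rw [natCast_zsmul, hh.nsmul]
      exact pow_mem h1 n
    · have : (-(n : ℤ)) • τ = n • (-τ) := by
        rw [neg_smul, natCast_zsmul, smul_neg]
      rw [this, hh.nsmul]
      exact pow_mem h2 n
  have h4 : h (v - e • τ) ∈ S := by
    apply hN
    rw [map_sub, map_zsmul, he, smul_eq_mul, mul_comm, sub_self]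
  have h5 : v = (v - e • τ) + e • τ := by abel
  rw [h5, hh.add]
  exact S.mul_mem h4 h3

end

end Pool.Agent.E8helper74.BA
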