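import Pool.Agent.E8helper74.BA.Newt

/-!
# The dimension of the strata and the dimensions of the Newton polytopes
-/

set_option autoImplicit false
set_option linter.unusedSectionVars false

open MvPolynomial

attribute [local instance] Classical.propDecidable

namespace Pool.Agent.E8helper74.BA

/-- The dimension of the Newton polytope of a polynomial: the rank of the group generated by the
differences of the exponents of its monomials. -/
noncomputable def newtonDim {R : Type} [CommRing R] {σ : Type} (g : MvPolynomial σ R) : ℕ :=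
  Module.finrank ℤ (Submodule.span ℤ {d : σ → ℤ | ∃ m ∈ g.support, ∃ m' ∈ g.support,
    d = fun i => (m i : ℤ) - (m' i : ℤ)})

theorem finrank_ker_int (V : Type) [AddCommGroup V] [Module.Finite ℤ V] (g : V →ₗ[ℤ] ℤ)
    (hg : ∃ v, g v ≠ 0) : Module.finrank ℤ (LinearMap.ker g) = Module.finrank ℤ V - 1 := by
  have h1 := Submodule.finrank_quotient_add_finrank (LinearMap.ker g)
  have h2 := g.quotKerEquivRange.finrank_eq
  have h3 : Module.finrank ℤ (LinearMap.range g) ≤ 1 := by
    have := Submodule.finrank_le (LinearMap.range g)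
    rwa [Module.finrank_self] at this
  have h4 : 0 < Module.finrank ℤ (LinearMap.range g) := by
    rw [Module.finrank_pos_iff]
    obtain ⟨v, hv⟩ := hg
    refine ⟨⟨⟨g v, ⟨v, rfl⟩⟩, 0, ?_⟩⟩
    intro h
    exact hv (congrArg Subtype.val h)
  omega

section cell

variable {R : Type} [CommRing R] {σ κ : Type} [Fintype σ] [Fintype κ] (f : κ → MvPolynomial σ R)
variable (B : Type) [CommRing B] [Algebra (MvPolynomial σ R) B] [Algebra R B]
  [IsScalarTower R (MvPolynomial σ R) B]

/-- the group of the `l`-th equation -/
def VV (l : κ) : Submodule ℤ (HH R σ B) :=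
  Submodule.span ℤ {d | ∃ m ∈ supE f B l, ∃ m' ∈ supE f B l,
    d = res (uq R B) m - res (uq R B) m'}

theorem VV_le (l : κ) {v : HH R σ B} (hv : v ∈ VV f B l) : v ∈ Lam f B := by
  unfold VV at hv
  induction hv using Submodule.span_induction with
  | mem x hx =>
    obtain ⟨m, hm, m', hm', rfl⟩ := hx
    exact AddSubgroup.subset_closure ⟨l, m, hm, m', hm', rfl⟩
  | zero => exact zero_mem _
  | add x y _ _ hx hy => exact add_mem hx hy
  | smul c x _ hx => exact zsmul_mem hx c

theorem rank_VV (l : κ) : Module.finrank ℤ (VV f B l) ≤ newtonDim (f l) := by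
  unfold newtonDim
  rw [(Submodule.equivMapOfInjective (extZ B) (extZ_inj B) (VV f B l)).finrank_eq]
  apply Submodule.finrank_mono
  unfold VV
  rw [Submodule.map_span, Submodule.span_le]
  rintro _ ⟨_, ⟨m, hm, m', hm', rfl⟩, rfl⟩
  rw [supE, Finset.mem_filter] at hm hm'
  rw [map_sub, extZ_res B m hm.2.1, extZ_res B m' hm'.2.1]
  exact Submodule.subset_span ⟨m, hm.1, m', hm'.1, rfl⟩

theorem res_inj {m m' : σ →₀ ℕ} (hm : Sup (uq R B) m) (hm' : Sup (uq R B) m')
    (h : res (uq R B) m = res (uq R B) m') : m = m' := by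
  have h1 := congrArg (extZ (R := R) (σ := σ) B) h
  rw [extZ_res B m hm, extZ_res B m' hm'] at h1
  ext i
  have := congrFun h1 i
  exact_mod_cast this

theorem exists_sep (l : κ) : ∃ g : HH R σ B →ₗ[ℤ] ℤ, ∀ m ∈ supE f B l, ∀ m' ∈ supE f B l,
    g (res (uq R B) m - res (uq R B) m') = 0 → m = m' := by
  obtain ⟨g, hg⟩ := exists_functional
    (((supE f B l).offDiag).image fun q => res (uq R B) q.1 - res (uq R B) q.2) (by
      intro v hv
      obtain ⟨⟨m, m'⟩, hq, rfl⟩ := Finset.mem_image.mp hv
      rw [Finset.mem_offDiag] at hq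
      obtain ⟨hm, hm', hne⟩ := hq
      rw [supE, Finset.mem_filter] at hm hm'
      intro h0
      exact hne (res_inj B hm.2.1 hm'.2.1 (sub_eq_zero.mp h0)))
  refine ⟨g, fun m hm m' hm' h0 => ?_⟩
  by_contra hne
  exact hg _ (Finset.mem_image.mpr ⟨(m, m'), Finset.mem_offDiag.mpr ⟨hm, hm', hne⟩, rfl⟩) h0

variable (g : κ → HH R σ B →ₗ[ℤ] ℤ)

/-- the kernel of the functional on the group of the `l`-th equation -/
noncomputable def NN (l : κ) : Submodule ℤ (VV f B l) := LinearMap.ker ((g l).domRestrict (VV f B l))

variable (hg : ∀ l, ∀ m ∈ supE f B l, ∀ m' ∈ supE f B l,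
    g l (res (uq R B) m - res (uq R B) m') = 0 → m = m')
variable (hex : ∀ l, ∃ m0 m1, supE f B l = ∅ ∨ (m0 ∈ supE f B l ∧ m1 ∈ supE f B l ∧ m0 ≠ m1))

include hg hex in
theorem rank_NN (l : κ) : Module.finrank ℤ (NN f B g l) ≤ newtonDim (f l) - 1 := by
  obtain ⟨m0, m1, h | ⟨h0, h1, hne⟩⟩ := hex l
  · have h1 : VV f B l = ⊥ := by
      unfold VV
      rw [Submodule.span_eq_bot]
      rintro _ ⟨m, hm, -⟩
      rw [h] at hm
      exact absurd hm (Finset.notMem_empty _)
    have h2 : Subsingleton (VV f B l) := by
      rw [h1]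
      infer_instance
    have h3 : Subsingleton (NN f B g l) := inferInstance
    rw [Module.finrank_zero_of_subsingleton]
    exact Nat.zero_le _
  · unfold NN
    rw [finrank_ker_int]
    · have := rank_VV f B l
      omega
    · refine ⟨⟨res (uq R B) m0 - res (uq R B) m1, Submodule.subset_span ⟨m0, h0, m1, h1, rfl⟩⟩, ?_⟩
      intro h2
      exact hne (hg l m0 h0 m1 h1 h2)

variable {K : Type} [AddCommGroup K] (p : HH R σ B →+ K)
variable (hB : IsStratum (Ideal.span (Set.range f)) (fns f : Set (MvPolynomial σ R)) B)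
variable (hp : ∀ a, p a = 0 ↔ ∃ n : ℕ, 0 < n ∧ n • a ∈ Lam f B)

include hp in
theorem p_VV {l : κ} {v : HH R σ B} (hv : v ∈ VV f B l) : p v = 0 :=
  (hp v).mpr ⟨1, one_pos, by rw [one_smul]; exact VV_le f B l hv⟩

/-- the indices of the parameters -/
abbrev Jdx : Type := (l : κ) × Fin (Module.finrank ℤ (NN f B g l))

/-- the exponent of a parameter -/
noncomputable def bas (u : Jdx f B g) : VV f B u.1 :=
  (Module.finBasis ℤ (NN f B g u.1) u.2 : NN f B g u.1).1

/-- the parametrization -/
noncomputable def psi2 : MvPolynomial (Jdx f B g) R →ₐ[R] Cal f B p :=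
  aeval fun u => mc f B p (bas f B g u).1 (p_VV f B p hp (bas f B g u).2)

theorem psi2_X (u : Jdx f B g) : psi2 f B g p hp (X u) =
    mc f B p (bas f B g u).1 (p_VV f B p hp (bas f B g u).2) := by
  unfold psi2
  rw [aeval_X]

theorem psi2_C (r : R) : psi2 f B g p hp (C r) = algebraMap R (Cal f B p) r := by
  unfold psi2
  rw [aeval_C]

include hB hp hg hex in
theorem cell_dim2 : ringKrullDim (Cal f B p) ≤ ringKrullDim (MvPolynomial (Jdx f B g) R) := by
  obtain ⟨S, h1, h2, h3, h4⟩ := exists_integral
    (psi2 f B g p hp : MvPolynomial (Jdx f B g) R →+* Cal f B p)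
  apply h4
  have hR : ∀ r, algebraMap R (Cal f B p) r ∈ S := fun r => by
    rw [← psi2_C f B g p hp]
    exact h1 _
  -- the monomials with exponents in the groups of the equations
  have hV : ∀ (l : κ) (v : VV f B l), mc f B p v.1 (p_VV f B p hp v.2) ∈ S := by
    intro l
    let h : VV f B l → Cal f B p := fun v => mc f B p v.1 (p_VV f B p hp v.2)
    have hh : IsMon h :=
      { zero := Subtype.ext (isMon_mon B).zero
        add := fun a b => Subtype.ext ((isMon_mon B).add a.1 b.1) }
    have hN : ∀ v : VV f B l, g l v.1 = 0 → h v ∈ S := by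
      intro v hv
      let A : AddSubgroup (VV f B l) :=
        { carrier := {v | h v ∈ S ∧ h (-v) ∈ S}
          zero_mem' := by
            change h 0 ∈ S ∧ h (-0) ∈ S
            rw [neg_zero, hh.zero]
            exact ⟨S.one_mem, S.one_mem⟩
          add_mem' := by
            rintro a b ⟨ha, ha'⟩ ⟨hb, hb'⟩
            change h (a + b) ∈ S ∧ h (-(a + b)) ∈ S
            rw [neg_add, hh.add, hh.add]
            exact ⟨S.mul_mem ha hb, S.mul_mem ha' hb'⟩
          neg_mem' := by
            rintro a ⟨ha, ha'⟩
            change h (-a) ∈ S ∧ h (- -a) ∈ S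
            rw [neg_neg]
            exact ⟨ha', ha⟩ }
      have hA : ∀ j, (Module.finBasis ℤ (NN f B g l) j : NN f B g l).1 ∈ A := by
        intro j
        have e1 : psi2 f B g p hp (X ⟨l, j⟩) =
            h (Module.finBasis ℤ (NN f B g l) j : NN f B g l).1 := psi2_X f B g p hp ⟨l, j⟩
        refine ⟨?_, ?_⟩
        · rw [← e1]
          exact h1 _
        · refine h2 (X ⟨l, j⟩) _ ?_
          change psi2 f B g p hp (X ⟨l, j⟩) * _ = 1
          rw [e1, mul_comm]
          exact hh.neg_mul _
      have hvN : v ∈ NN f B g l := hv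
      have hsum := (Module.finBasis ℤ (NN f B g l)).sum_repr ⟨v, hvN⟩
      have hv2 : v = ∑ j, (Module.finBasis ℤ (NN f B g l)).repr ⟨v, hvN⟩ j •
          (Module.finBasis ℤ (NN f B g l) j : NN f B g l).1 := by
        have := congrArg (NN f B g l).subtype hsum
        rw [map_sum] at this
        simp only [map_smul, Submodule.subtype_apply] at this
        exact this.symm
      have hvA : v ∈ A := by
        rw [hv2]
        exact sum_mem fun j _ => zsmul_mem (hA j) _
      exact hvA.1
    obtain ⟨m0, m1, he | ⟨hm0, hm1, hne⟩⟩ := hex l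
    · intro v
      apply hN
      have h1 : VV f B l = ⊥ := by
        unfold VV
        rw [Submodule.span_eq_bot]
        rintro _ ⟨m, hm, -⟩
        rw [he] at hm
        exact absurd hm (Finset.notMem_empty _)
      have h2 : v.1 = 0 := (Submodule.mem_bot ℤ).mp (h1.le v.2)
      rw [h2, map_zero]
    · have hsup : ∀ m ∈ supE f B l, m ∈ (f l).support ∧
          IsUnit (algebraMap (MvPolynomial σ R) B (C (coeff m (f l)))) := fun m hm => by
        rw [supE, Finset.mem_filter] at hm
        exact ⟨hm.1, hm.2.2⟩
      let w : {m // m ∈ supE f B l} → VV f B l := fun m =>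
        ⟨res (uq R B) m.1 - res (uq R B) m0, Submodule.subset_span ⟨m.1, m.2, m0, hm0, rfl⟩⟩
      let c : {m // m ∈ supE f B l} → Cal f B p := fun m => algebraMap R (Cal f B p) (coeff m.1 (f l))
      refine all_mem h3 hh (supE f B l).attach w c (fun m _ => hR _) ?_ ?_
        ((g l).domRestrict (VV f B l)).toAddMonoidHom ?_ ?_ hN
      · intro m _
        obtain ⟨b, hb⟩ := cof_exists f B p hB l m.1 (hsup _ m.2).1 (hsup _ m.2).2
        refine ⟨b, h2 (C (coeff m.1 (f l))) b ?_, hb⟩
        change psi2 f B g p hp (C (coeff m.1 (f l))) * b = 1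
        rw [psi2_C]
        exact hb
      · have hr := rel f B hB l
        apply Subtype.ext
        have e1 : ((∑ m ∈ (supE f B l).attach, c m * h (w m) : Cal f B p) : B) =
            ∑ m ∈ (supE f B l).attach, algebraMap R B (coeff m.1 (f l)) *
              mon B (res (uq R B) m.1 - res (uq R B) m0) := by
          rw [AddSubmonoidClass.coe_finsetSum]
          rfl
        rw [e1, Finset.sum_attach (supE f B l) (fun m => algebraMap R B (coeff m (f l)) *
          mon B (res (uq R B) m - res (uq R B) m0))]
        have h1 := congrArg (fun b => b * mon B (-res (uq R B) m0)) hr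
        simp only [zero_mul, Finset.sum_mul] at h1
        change _ = (0 : B)
        rw [← h1]
        apply Finset.sum_congr rfl
        intro m _
        rw [sub_eq_add_neg, (isMon_mon B).add, mul_assoc]
      · intro m _ m' _ h0
        apply Subtype.ext
        apply hg l m.1 m.2 m'.1 m'.2
        have h5 : g l (res (uq R B) m.1 - res (uq R B) m0) =
            g l (res (uq R B) m'.1 - res (uq R B) m0) := h0
        have h6 : res (uq R B) m.1 - res (uq R B) m'.1 =
            (res (uq R B) m.1 - res (uq R B) m0) - (res (uq R B) m'.1 - res (uq R B) m0) := by abel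
        rw [h6, map_sub, h5, sub_self]
      · rw [Finset.card_attach]
        exact Finset.one_lt_card.mpr ⟨m0, hm0, m1, hm1, hne⟩
  -- the monomials with exponents in their sum
  have hL : ∀ a (ha : p a = 0), a ∈ Lam f B → mc f B p a ha ∈ S := by
    let A : AddSubgroup (HH R σ B) :=
      { carrier := {a | ∃ (ha : p a = 0) (hb : p (-a) = 0), mc f B p a ha ∈ S ∧ mc f B p (-a) hb ∈ S}
        zero_mem' := by
          refine ⟨map_zero p, by rw [neg_zero, map_zero], ?_, ?_⟩
          · have : mc f B p 0 (map_zero p) = 1 := Subtype.ext (isMon_mon B).zero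
            rw [this]
            exact S.one_mem
          · have : mc f B p (-0) (by rw [neg_zero, map_zero]) = 1 := Subtype.ext (by
              change mon B (-0) = 1
              rw [neg_zero]
              exact (isMon_mon B).zero)
            rw [this]
            exact S.one_mem
        add_mem' := by
          rintro a b ⟨ha, ha', h1, h1'⟩ ⟨hb, hb', h2, h2'⟩
          have e1 : p (a + b) = 0 := by rw [map_add, ha, hb, add_zero]
          have e2 : p (-(a + b)) = 0 := by rw [map_neg, e1, neg_zero]
          refine ⟨e1, e2, ?_, ?_⟩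
          · have : mc f B p (a + b) e1 = mc f B p a ha * mc f B p b hb :=
              Subtype.ext ((isMon_mon B).add a b)
            rw [this]
            exact S.mul_mem h1 h2
          · have : mc f B p (-(a + b)) e2 = mc f B p (-a) ha' * mc f B p (-b) hb' :=
              Subtype.ext (by
                change mon B (-(a + b)) = mon B (-a) * mon B (-b)
                rw [neg_add, (isMon_mon B).add])
            rw [this]
            exact S.mul_mem h1' h2'
        neg_mem' := by
          rintro a ⟨ha, ha', h1, h1'⟩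
          have e1 : p (- -a) = 0 := by rw [neg_neg, ha]
          refine ⟨ha', e1, h1', ?_⟩
          have : mc f B p (- -a) e1 = mc f B p a ha := Subtype.ext (by
            change mon B (- -a) = mon B a
            rw [neg_neg])
          rw [this]
          exact h1 }
    have hle : Lam f B ≤ A := by
      unfold Lam
      rw [AddSubgroup.closure_le]
      rintro _ ⟨l, m, hm, m', hm', rfl⟩
      have hv : res (uq R B) m - res (uq R B) m' ∈ VV f B l :=
        Submodule.subset_span ⟨m, hm, m', hm', rfl⟩
      have hv' : -(res (uq R B) m - res (uq R B) m') ∈ VV f B l := neg_mem hv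
      exact ⟨p_VV f B p hp hv, p_VV f B p hp hv', hV l ⟨_, hv⟩, hV l ⟨_, hv'⟩⟩
    intro a ha haL
    obtain ⟨_, _, h5, _⟩ := hle haL
    exact h5
  have hK : ∀ a (ha : p a = 0), mc f B p a ha ∈ S := by
    intro a ha
    obtain ⟨n, hn, hna⟩ := (hp a).mp ha
    have hpn : p (n • a) = 0 := by rw [map_nsmul, ha, smul_zero]
    have h5 := hL (n • a) hpn hna
    refine h3 _ n (fun j => if j = 0 then -(mc f B p (n • a) hpn) else 0) hn ?_ ?_
    · intro j
      split_ifs
      · exact S.neg_mem h5
      · exact S.zero_mem
    · rw [Finset.sum_eq_single 0]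
      · rw [if_pos rfl, pow_zero, mul_one]
        apply Subtype.ext
        change mon B a ^ n + -(mon B (n • a)) = 0
        rw [(isMon_mon B).nsmul, add_neg_cancel]
      · intro j _ hj
        rw [if_neg hj, zero_mul]
      · intro h
        exact absurd (Finset.mem_range.mpr hn) h
  rw [eq_top_iff]
  rintro ⟨c, hc⟩ -
  induction hc using Algebra.adjoin_induction with
  | mem x hx =>
    rcases hx with ⟨l, m, hm, hb⟩ | ⟨a, ha, rfl⟩
    · refine h2 (C (coeff m (f l))) _ ?_
      change psi2 f B g p hp (C (coeff m (f l))) * _ = 1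
      rw [psi2_C]
      exact Subtype.ext hb
    · exact hK a ha
  | algebraMap r => exact hR r
  | add x y hx hy ihx ihy => exact add_mem ihx ihy
  | mul x y hx hy ihx ihy => exact mul_mem ihx ihy

end cell

end Pool.Agent.E8helper74.BA
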