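import Mathlib

/-!
# Splitting off a torus: rings generated by units with a grading, and Krull dimension
-/

set_option autoImplicit false

open AddMonoidAlgebra

namespace Pool.Agent.E8helper74.BA

section dim

theorem dim_integral {R S : Type*} [CommRing R] [CommRing S] (f : R →+* S)
    (hf : f.IsIntegral) : ringKrullDim S ≤ ringKrullDim R := by
  let _ : Algebra R S := f.toAlgebra
  refine Order.krullDim_le_of_strictMono (PrimeSpectrum.comap f) ?_
  intro P Q hPQ
  have hle : P.asIdeal ≤ Q.asIdeal := hPQ.le
  have hne : ¬ Q.asIdeal ≤ P.asIdeal := fun h => hPQ.not_ge h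
  obtain ⟨x, hx1, hx2⟩ := Set.not_subset.mp hne
  have := Ideal.comap_lt_comap_of_integral_mem_sdiff (R := R) hle ⟨hx1, hx2⟩ (hf x)
  exact this

theorem dim_local (P : Type*) [CommRing P] (M : Submonoid P) (L : Type*) [CommRing L] [Algebra P L]
    [IsLocalization M L] : ringKrullDim L ≤ ringKrullDim P :=
  Order.krullDim_le_of_strictMono (PrimeSpectrum.comap (algebraMap P L))
    (Monotone.strictMono_of_injective (fun _ _ hab => Ideal.comap_mono hab)
      (PrimeSpectrum.localization_comap_injective L M))

/-- A ring which is generated by elements `g` such that some power of `g` is a quotient `ψ(p) / ψ(q)` has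
dimension at most that of the source of `ψ`. -/
theorem dim_gen {P C : Type*} [CommRing P] [CommRing C] (ψ : P →+* C) (G : Set C)
    (hG : Subring.closure G = ⊤)
    (h : ∀ g ∈ G, ∃ (n : ℕ) (p q : P), 0 < n ∧ IsUnit (ψ q) ∧ g ^ n * ψ q = ψ p) :
    ringKrullDim C ≤ ringKrullDim P := by
  let M : Submonoid P := (IsUnit.submonoid C).comap ψ
  have hM : ∀ y : M, IsUnit (ψ y) := fun y => y.2
  let χ : Localization M →+* C := IsLocalization.lift hM
  have hχ : ∀ p : P, χ (algebraMap P (Localization M) p) = ψ p := fun p =>
    IsLocalization.lift_eq hM p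
  have hint : χ.IsIntegral := by
    intro c
    have hc : c ∈ Subring.closure G := by
      rw [hG]
      trivial
    induction hc using Subring.closure_induction with
    | mem g hg =>
      obtain ⟨n, p, q, hn, hq, hpq⟩ := h g hg
      have hz : χ (IsLocalization.mk' (Localization M) p (⟨q, hq⟩ : M)) = g ^ n := by
        rw [IsLocalization.lift_mk'_spec]
        rw [← hpq]
        ring
      have h1 : χ.IsIntegralElem (g ^ n) := by
        rw [← hz]
        exact RingHom.isIntegralElem_map _
      let _ : Algebra (Localization M) C := χ.toAlgebra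
      have h2 : IsIntegral (Localization M) (g ^ n) := h1
      exact IsIntegral.of_pow hn h2
    | zero => exact RingHom.isIntegralElem_zero _
    | one => exact RingHom.isIntegralElem_one _
    | add x y _ _ hx hy => exact RingHom.IsIntegralElem.add _ hx hy
    | neg x _ hx => exact RingHom.IsIntegralElem.neg _ hx
    | mul x y _ _ hx hy => exact RingHom.IsIntegralElem.mul _ hx hy
  exact (dim_integral χ hint).trans (dim_local P M (Localization M))

end dim

section torus

variable {R B : Type} [CommRing R] [CommRing B] [Algebra R B] {H K : Type} [AddCommGroup H]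
  [AddCommGroup K]

/-- a family of units `mon a` with `mon (a + b) = mon a * mon b` -/
structure IsMon (mon : H → B) : Prop where
  zero : mon 0 = 1
  add : ∀ a b, mon (a + b) = mon a * mon b

variable {mon : H → B} (hm : IsMon mon) (p : H →+ K) (σ : K →+ H) (hσ : ∀ a, p (σ a) = a)
  (C : Subalgebra R B) (hC : ∀ a, p a = 0 → mon a ∈ C)

include hσ in
theorem p_sub (a : H) : p (a - σ (p a)) = 0 := by
  rw [map_sub, hσ, sub_self]

/-- The homogeneous element of degree `p a` in `C[K]` given by `mon a`. -/
noncomputable def hom' (a : H) : AddMonoidAlgebra C K :=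
  single (p a) ⟨mon (a - σ (p a)), hC _ (p_sub p σ hσ a)⟩

include hm in
theorem hom'_zero : hom' p σ hσ C hC 0 = 1 := by
  unfold hom'
  rw [AddMonoidAlgebra.one_def]
  congr 1
  · exact map_zero p
  · apply Subtype.ext
    change mon (0 - σ (p 0)) = 1
    rw [map_zero, map_zero, sub_zero, hm.zero]

include hm in
theorem hom'_add (a b : H) : hom' p σ hσ C hC (a + b) = hom' p σ hσ C hC a * hom' p σ hσ C hC b := by
  unfold hom'
  rw [AddMonoidAlgebra.single_mul_single]
  congr 1
  · exact map_add p a b
  · apply Subtype.ext
    change mon (a + b - σ (p (a + b))) = mon (a - σ (p a)) * mon (b - σ (p b))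
    rw [← hm.add]
    congr 1
    rw [map_add, map_add]
    abel

include hm in
theorem mon_unit (a : H) : IsUnit (mon a) := by
  refine IsUnit.of_mul_eq_one (mon (-a)) ?_
  rw [← hm.add, add_neg_cancel, hm.zero]

/-- the map back -/
noncomputable def back : AddMonoidAlgebra C K →+* B :=
  AddMonoidAlgebra.liftNCRingHom (C.val : C →+* B)
    { toFun := fun a => mon (σ a.toAdd)
      map_one' := by
        change mon (σ 0) = 1
        rw [map_zero, hm.zero]
      map_mul' := fun a b => by
        change mon (σ (a.toAdd + b.toAdd)) = _
        rw [map_add, hm.add] }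
    (fun _ _ => Commute.all _ _)

theorem back_single (a : K) (c : C) : back hm σ C (single a c) = (c : B) * mon (σ a) := by
  unfold back
  rw [AddMonoidAlgebra.liftNCRingHom_single]
  rfl

theorem back_hom (a : H) : back hm σ C (hom' p σ hσ C hC a) = mon a := by
  unfold hom'
  rw [back_single]
  change mon (a - σ (p a)) * mon (σ (p a)) = mon a
  rw [← hm.add, sub_add_cancel]

include hm in
/-- If `B` is generated by `R`, the inverses of some elements, and `mon a` (in the sense of
epimorphisms), and has the homomorphism to `C[K]` of a grading, then it is isomorphic to `C[K]`. -/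
theorem torus_iso (Θ : B →+* AddMonoidAlgebra C K)
    (h1 : ∀ a : H, Θ (mon a) = hom' p σ hσ C hC a)
    (h2 : ∀ c : C, Θ (c : B) = single 0 c)
    (hid : ∀ g : B →+* B, (∀ a : H, g (mon a) = mon a) → (∀ c : C, g c = c) → g = RingHom.id B) :
    Nonempty (B ≃+* AddMonoidAlgebra C K) := by
  have hcomp : (back hm σ C).comp Θ = RingHom.id B := by
    apply hid
    · intro a
      rw [RingHom.comp_apply, h1, back_hom]
    · intro c
      rw [RingHom.comp_apply, h2, back_single, map_zero, hm.zero, mul_one]
  refine ⟨RingEquiv.ofBijective Θ ⟨?_, ?_⟩⟩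
  · intro x y hxy
    have := congrArg (back hm σ C) hxy
    rw [← RingHom.comp_apply, ← RingHom.comp_apply, hcomp] at this
    exact this
  · intro z
    induction z using AddMonoidAlgebra.induction_on with
    | of m =>
      refine ⟨mon (σ m), ?_⟩
      rw [h1]
      unfold hom'
      change _ = single m (1 : C)
      congr 1
      · exact hσ m
      · apply Subtype.ext
        change mon (σ m - σ (p (σ m))) = 1
        rw [hσ, sub_self, hm.zero]
    | add x y hx hy =>
      obtain ⟨x', rfl⟩ := hx
      obtain ⟨y', rfl⟩ := hy
      exact ⟨x' + y', map_add _ _ _⟩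
    | smul c x hx =>
      obtain ⟨x', rfl⟩ := hx
      refine ⟨c * x', ?_⟩
      rw [map_mul, h2, Algebra.smul_def]
      rfl

end torus

end Pool.Agent.E8helper74.BA
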